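import Pool.Agent.H93.Schatten.Defs

open scoped ENNReal InnerProductSpace Real
open Filter Topology MeasureTheory ContinuousLinearMap

namespace Pool.Agent.H93.Schatten

universe u

/-! ## Approximation numbers -/

section Approx

variable {H : Type u} [NormedAddCommGroup H] [InnerProductSpace ℂ H] [CompleteSpace H]

lemma approxNumber_le (X F : H →L[ℂ] H) (k : ℕ) (hF : (F : H →ₗ[ℂ] H).rank ≤ k) :
    approxNumber X k ≤ ‖X - F‖ₑ := iInf₂_le F hF

lemma approxNumber_le_norm (X : H →L[ℂ] H) (k : ℕ) : approxNumber X k ≤ ‖X‖ₑ := by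
  have := approxNumber_le X 0 k (by simp)
  simpa using this

lemma exists_approx (X : H →L[ℂ] H) (k : ℕ) (ε : ℝ≥0∞) (hε : ε ≠ 0) :
    ∃ F : H →L[ℂ] H, (F : H →ₗ[ℂ] H).rank ≤ k ∧ ‖X - F‖ₑ ≤ approxNumber X k + ε := by
  have hfin : approxNumber X k ≠ ⊤ := ne_top_of_le_ne_top (by simp) (approxNumber_le_norm X k)
  have hlt : approxNumber X k < approxNumber X k + ε := ENNReal.lt_add_right hfin hε
  obtain ⟨F, hF⟩ := iInf_lt_iff.1 hlt
  obtain ⟨hF1, hF2⟩ := iInf_lt_iff.1 hF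
  exact ⟨F, hF1, hF2.le⟩

lemma approxNumber_antitone (X : H →L[ℂ] H) : Antitone (approxNumber X) := by
  intro j k hjk
  refine le_iInf₂ fun F hF => approxNumber_le X F k (hF.trans ?_)
  exact_mod_cast hjk

lemma approxNumber_neg (X : H →L[ℂ] H) (k : ℕ) : approxNumber (-X) k = approxNumber X k := by
  have key : ∀ Y : H →L[ℂ] H, approxNumber (-Y) k ≤ approxNumber Y k := by
    intro Y
    refine le_iInf₂ fun F hF => ?_
    have h : ((-F : H →L[ℂ] H) : H →ₗ[ℂ] H).rank ≤ k := by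
      have : (((-F : H →L[ℂ] H) : H →ₗ[ℂ] H)) = -(F : H →ₗ[ℂ] H) := rfl
      rw [this]
      have h2 : LinearMap.range (-(F : H →ₗ[ℂ] H)) = LinearMap.range (F : H →ₗ[ℂ] H) :=
        LinearMap.range_neg _
      unfold LinearMap.rank
      rw [h2]
      exact hF
    refine (approxNumber_le (-Y) (-F) k h).trans ?_
    have : -Y - -F = -(Y - F) := by abel
    rw [this, enorm_neg]
  exact le_antisymm (key X) (by simpa using key (-X))

lemma approxNumber_add (X Y : H →L[ℂ] H) (j k : ℕ) :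
    approxNumber (X + Y) (j + k) ≤ approxNumber X j + approxNumber Y k := by
  refine ENNReal.le_of_forall_pos_le_add fun ε hε _ => ?_
  have hε' : ((ε / 2 : NNReal) : ℝ≥0∞) ≠ 0 := by
    have : (0 : NNReal) < ε / 2 := by positivity
    exact_mod_cast this.ne'
  obtain ⟨F, hF, hF'⟩ := exists_approx X j _ hε'
  obtain ⟨G, hG, hG'⟩ := exists_approx Y k _ hε'
  have hr : ((F + G : H →L[ℂ] H) : H →ₗ[ℂ] H).rank ≤ ((j + k : ℕ) : Cardinal) := by
    push_cast
    refine (LinearMap.rank_add_le (F : H →ₗ[ℂ] H) (G : H →ₗ[ℂ] H)).trans ?_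
    exact add_le_add hF hG
  refine (approxNumber_le (X + Y) (F + G) _ hr).trans ?_
  have h1 : X + Y - (F + G) = (X - F) + (Y - G) := by abel
  rw [h1]
  refine (enorm_add_le _ _).trans ?_
  refine (add_le_add hF' hG').trans ?_
  have : approxNumber X j + ((ε / 2 : NNReal) : ℝ≥0∞) + (approxNumber Y k + ((ε / 2 : NNReal) : ℝ≥0∞))
      = approxNumber X j + approxNumber Y k + (((ε / 2 : NNReal) : ℝ≥0∞) + ((ε / 2 : NNReal) : ℝ≥0∞)) := by
    ring
  rw [this, ← ENNReal.coe_add, add_halves]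



open ContinuousLinearMap in
lemma approxNumber_adjoint_le (X : H →L[ℂ] H) (k : ℕ) :
    approxNumber (adjoint X) k ≤ approxNumber X k := by
  refine le_iInf₂ fun F hF => ?_
  have hfr : FiniteDimensional ℂ (LinearMap.range (F : H →ₗ[ℂ] H)) := by
    have : Module.rank ℂ (LinearMap.range (F : H →ₗ[ℂ] H)) < Cardinal.aleph0 :=
      lt_of_le_of_lt hF (Cardinal.natCast_lt_aleph0)
    exact Module.rank_lt_aleph0_iff.1 this
  set R : Submodule ℂ H := LinearMap.range (F : H →ₗ[ℂ] H) with hR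
  have hrank : ((adjoint F : H →L[ℂ] H) : H →ₗ[ℂ] H).rank ≤ k := by
    -- range F† = F† '' R
    have h1 : LinearMap.range ((adjoint F : H →L[ℂ] H) : H →ₗ[ℂ] H)
        ≤ Submodule.map ((adjoint F : H →L[ℂ] H) : H →ₗ[ℂ] H) R := by
      rintro _ ⟨y, rfl⟩
      refine ⟨R.starProjection y, R.starProjection_apply_mem y, ?_⟩
      have h2 : (adjoint F) (y - R.starProjection y) = 0 := by
        refine ext_inner_right ℂ fun v => ?_
        rw [ContinuousLinearMap.adjoint_inner_left, inner_zero_left]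
        exact Submodule.starProjection_inner_eq_zero y (F v) ⟨v, rfl⟩
      rw [map_sub, sub_eq_zero] at h2
      exact h2.symm
    calc ((adjoint F : H →L[ℂ] H) : H →ₗ[ℂ] H).rank
        ≤ Module.rank ℂ (Submodule.map ((adjoint F : H →L[ℂ] H) : H →ₗ[ℂ] H) R) :=
          Submodule.rank_mono h1
      _ ≤ Module.rank ℂ R := rank_map_le _ _
      _ ≤ k := hF
  refine (approxNumber_le (adjoint X) (adjoint F) k hrank).trans ?_
  rw [← map_sub]
  have : ‖(adjoint (X - F) : H →L[ℂ] H)‖ = ‖X - F‖ := LinearIsometryEquiv.norm_map _ _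
  rw [← ofReal_norm, ← ofReal_norm, this]

open ContinuousLinearMap in
lemma approxNumber_adjoint (X : H →L[ℂ] H) (k : ℕ) :
    approxNumber (adjoint X) k = approxNumber X k := by
  refine le_antisymm (approxNumber_adjoint_le X k) ?_
  have := approxNumber_adjoint_le (adjoint X) k
  simpa using this

/-- scaled projection of finite rank `n` : lower bound -/
lemma le_approxNumber_smul_proj (E : Submodule ℂ H) [FiniteDimensional ℂ E] (c : ℂ) (k : ℕ)
    (hk : k < Module.finrank ℂ E) :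
    ‖c‖ₑ ≤ approxNumber (c • E.starProjection) k := by
  refine le_iInf₂ fun F hF => ?_
  -- F restricted to E has nontrivial kernel
  have hlt : Module.finrank ℂ (LinearMap.range ((F : H →ₗ[ℂ] H).comp E.subtype)) < Module.finrank ℂ E := by
    refine lt_of_le_of_lt ?_ hk
    have h1 : (((F : H →ₗ[ℂ] H).comp E.subtype)).rank ≤ (k : Cardinal) :=
      (LinearMap.rank_comp_le_left _ _).trans hF
    have : (Module.finrank ℂ (LinearMap.range ((F : H →ₗ[ℂ] H).comp E.subtype)) : Cardinal) ≤ k := by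
      rw [Module.finrank_eq_rank]
      exact h1
    exact_mod_cast this
  have hker : LinearMap.ker ((F : H →ₗ[ℂ] H).comp E.subtype) ≠ ⊥ := by
    intro hbot
    have := LinearMap.finrank_range_add_finrank_ker ((F : H →ₗ[ℂ] H).comp E.subtype)
    rw [hbot, finrank_bot] at this
    omega
  obtain ⟨v, hv, hv0⟩ := Submodule.exists_mem_ne_zero_of_ne_bot hker
  have hFv : F (v : H) = 0 := by simpa using hv
  have hv0' : ‖(v : H)‖ ≠ 0 := by
    simpa using hv0
  have happ : (c • E.starProjection - F) (v : H) = c • (v : H) := by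
    simp [hFv]
  have hle : ‖c‖ ≤ ‖c • E.starProjection - F‖ := by
    have := (c • E.starProjection - F).le_opNorm (v : H)
    rw [happ, norm_smul] at this
    exact le_of_mul_le_mul_right this (lt_of_le_of_ne (norm_nonneg _) (Ne.symm hv0'))
  rw [← ofReal_norm, ← ofReal_norm]
  exact ENNReal.ofReal_le_ofReal hle

lemma approxNumber_smul_proj_of_lt (E : Submodule ℂ H) [FiniteDimensional ℂ E] (c : ℂ) (k : ℕ)
    (hk : k < Module.finrank ℂ E) :
    approxNumber (c • E.starProjection) k = ‖c‖ₑ := by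
  refine le_antisymm ((approxNumber_le_norm _ k).trans ?_) (le_approxNumber_smul_proj E c k hk)
  rw [enorm_smul]
  have h1 : ‖E.starProjection‖ₑ ≤ 1 := by
    rw [← ofReal_norm]
    have := Submodule.starProjection_norm_le E
    calc ENNReal.ofReal ‖E.starProjection‖ ≤ ENNReal.ofReal 1 := ENNReal.ofReal_le_ofReal this
      _ = 1 := by simp
  calc ‖c‖ₑ * ‖E.starProjection‖ₑ ≤ ‖c‖ₑ * 1 := by gcongr
    _ = ‖c‖ₑ := mul_one _

lemma approxNumber_smul_proj_of_ge (E : Submodule ℂ H) [FiniteDimensional ℂ E] (c : ℂ) (k : ℕ)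
    (hk : Module.finrank ℂ E ≤ k) :
    approxNumber (c • E.starProjection) k = 0 := by
  have hr : ((c • E.starProjection : H →L[ℂ] H) : H →ₗ[ℂ] H).rank ≤ k := by
    have h1 : LinearMap.range ((c • E.starProjection : H →L[ℂ] H) : H →ₗ[ℂ] H) ≤ E := by
      rintro _ ⟨y, rfl⟩
      simpa using E.smul_mem c (E.starProjection_apply_mem y)
    calc ((c • E.starProjection : H →L[ℂ] H) : H →ₗ[ℂ] H).rank ≤ Module.rank ℂ E :=
          Submodule.rank_mono h1
      _ = (Module.finrank ℂ E : Cardinal) := (Module.finrank_eq_rank ℂ E).symm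
      _ ≤ k := by exact_mod_cast hk
  have := approxNumber_le (c • E.starProjection) (c • E.starProjection) k hr
  simpa using this

/-- the sum `∑ aₖ(X)^p`. -/
noncomputable def schattenSum (p : ℝ) (X : H →L[ℂ] H) : ℝ≥0∞ := ∑' k : ℕ, approxNumber X k ^ p

lemma schattenSum_smul_proj (p : ℝ) (hp : 0 < p) (E : Submodule ℂ H) [FiniteDimensional ℂ E] (c : ℂ) :
    schattenSum p (c • E.starProjection) = (Module.finrank ℂ E : ℝ≥0∞) * ‖c‖ₑ ^ p := by
  unfold schattenSum
  rw [tsum_eq_sum (s := Finset.range (Module.finrank ℂ E))]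
  · rw [Finset.sum_congr rfl (g := fun _ => ‖c‖ₑ ^ p)]
    · simp
    · intro k hk
      rw [approxNumber_smul_proj_of_lt E c k (Finset.mem_range.1 hk)]
  · intro k hk
    rw [approxNumber_smul_proj_of_ge E c k (by simpa using hk)]
    exact ENNReal.zero_rpow_of_pos hp

lemma schattenSum_neg (p : ℝ) (X : H →L[ℂ] H) : schattenSum p (-X) = schattenSum p X := by
  unfold schattenSum
  simp [approxNumber_neg]

lemma tsum_even_odd_le (a : ℕ → ℝ≥0∞) (ha : Antitone a) :
    ∑' k, a k ≤ 2 * ∑' k, a (2 * k) := by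
  rw [← tsum_even_add_odd ENNReal.summable ENNReal.summable, two_mul]
  gcongr with k
  exact ha (Nat.le_succ _)

lemma schattenSum_add_le (p : ℝ) (hp : 1 ≤ p) (X Y : H →L[ℂ] H) :
    schattenSum p (X + Y) ≤ 2 * 2 ^ (p - 1) * (schattenSum p X + schattenSum p Y) := by
  have hp0 : 0 ≤ p := by linarith
  unfold schattenSum
  have hanti : Antitone fun k => approxNumber (X + Y) k ^ p := fun j k hjk =>
    ENNReal.rpow_le_rpow (approxNumber_antitone _ hjk) hp0
  refine (tsum_even_odd_le _ hanti).trans ?_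
  rw [mul_assoc]
  gcongr
  rw [← ENNReal.tsum_add, ← ENNReal.tsum_mul_left]
  gcongr with k
  calc approxNumber (X + Y) (2 * k) ^ p ≤ (approxNumber X k + approxNumber Y k) ^ p := by
        gcongr
        rw [two_mul]
        exact approxNumber_add X Y k k
    _ ≤ 2 ^ (p - 1) * (approxNumber X k ^ p + approxNumber Y k ^ p) :=
        ENNReal.rpow_add_le_mul_rpow_add_rpow _ _ hp



section Strict

variable (T S : H →L[ℂ] H) (b : ℕ → ℂ)

lemma telescope (n : ℕ) :
    T ^ n - S ^ n = ∑ i ∈ Finset.range n, T ^ (n - 1 - i) * (T - S) * S ^ i := by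
  induction n with
  | zero => simp
  | succ n ih =>
    rw [Finset.sum_range_succ]
    have h1 : T ^ (n + 1) - S ^ (n + 1) = T * (T ^ n - S ^ n) + (T - S) * S ^ n := by
      rw [pow_succ', pow_succ']
      noncomm_ring
    rw [h1, ih, Finset.mul_sum]
    congr 1
    · refine Finset.sum_congr rfl fun i hi => ?_
      have hi' := Finset.mem_range.1 hi
      have : n + 1 - 1 - i = (n - 1 - i) + 1 := by omega
      rw [this, pow_succ' T, mul_assoc, mul_assoc, mul_assoc]
    · have : n + 1 - 1 - n = 0 := by omega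
      rw [this, pow_zero, one_mul]

omit [CompleteSpace H] in
lemma enorm_pow_le_one (hT : ‖T‖ ≤ 1) (n : ℕ) : ‖T ^ n‖ₑ ≤ 1 := by
  have h : ‖T ^ n‖ ≤ 1 := by
    rcases Nat.eq_zero_or_pos n with rfl | hn
    · rw [pow_zero]
      exact ContinuousLinearMap.norm_id_le
    · exact (norm_pow_le' T hn).trans (pow_le_one₀ (norm_nonneg _) hT)
  rw [← ofReal_norm]
  exact (ENNReal.ofReal_le_ofReal h).trans (by simp)

omit [CompleteSpace H] in
lemma enorm_pow_le_pow (i : ℕ) : ‖S ^ i‖ₑ ≤ ‖S‖ₑ ^ i := by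
  rcases Nat.eq_zero_or_pos i with rfl | hn
  · rw [pow_zero, pow_zero]
    rw [← ofReal_norm]
    exact (ENNReal.ofReal_le_ofReal (ContinuousLinearMap.norm_id_le)).trans (by simp)
  · have := norm_pow_le' S hn
    rw [← ofReal_norm, ← ofReal_norm, ← ENNReal.ofReal_pow (norm_nonneg _)]
    exact ENNReal.ofReal_le_ofReal this

lemma enorm_mul_le' (X Y : H →L[ℂ] H) : ‖X * Y‖ₑ ≤ ‖X‖ₑ * ‖Y‖ₑ := by
  rw [← ofReal_norm, ← ofReal_norm, ← ofReal_norm, ← ENNReal.ofReal_mul (norm_nonneg _)]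
  exact ENNReal.ofReal_le_ofReal (norm_mul_le X Y)

/-- the main finite rank approximation of `∑ bₙ (Tⁿ - Sⁿ)`. -/
lemma approx_series (hT : ‖T‖ ≤ 1) (hb : Summable fun n => ‖b n‖)
    (D : H →L[ℂ] H) (hD : HasSum (fun n => b n • (T ^ n - S ^ n)) D)
    (m : ℕ) (κ : ℕ → ℕ) (F : ℕ → H →L[ℂ] H) (hF : ∀ i, (F i : H →ₗ[ℂ] H).rank ≤ κ i)
    (hF0 : ∀ i, m ≤ i → F i = 0) :
    approxNumber D (∑ i ∈ Finset.range m, κ i) ≤
      (∑' n, ‖b n‖ₑ) * ∑' i, ‖S‖ₑ ^ i * ‖(T - S) - F i‖ₑ := by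
  classical
  -- the coefficients
  let c : ℕ → ℕ → H →L[ℂ] H := fun i n => if i < n then b n • T ^ (n - 1 - i) else 0
  have hnormpow : ∀ n : ℕ, ‖T ^ n‖ ≤ 1 := by
    intro n
    rcases Nat.eq_zero_or_pos n with rfl | hn
    · rw [pow_zero]
      exact ContinuousLinearMap.norm_id_le
    · exact (norm_pow_le' T hn).trans (pow_le_one₀ (norm_nonneg _) hT)
  have hc : ∀ i, Summable (c i) := by
    intro i
    refine Summable.of_norm_bounded hb fun n => ?_
    by_cases h : i < n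
    · simp only [c, if_pos h, norm_smul]
      exact mul_le_of_le_one_right (norm_nonneg _) (hnormpow _)
    · simp only [c, if_neg h, norm_zero]
      exact norm_nonneg _
  let C : ℕ → H →L[ℂ] H := fun i => ∑' n, c i n
  have hC : ∀ i, HasSum (fun n => c i n * (F i * S ^ i)) (C i * (F i * S ^ i)) := fun i =>
    ((hc i).hasSum).mul_right _
  have hG : HasSum (fun n => ∑ i ∈ Finset.range m, c i n * (F i * S ^ i))
      (∑ i ∈ Finset.range m, C i * (F i * S ^ i)) := hasSum_sum fun i _ => hC i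
  set G := ∑ i ∈ Finset.range m, C i * (F i * S ^ i) with hGdef
  have hrank : (G : H →ₗ[ℂ] H).rank ≤ ((∑ i ∈ Finset.range m, κ i : ℕ) : Cardinal) := by
    rw [hGdef]
    have : ((∑ i ∈ Finset.range m, C i * (F i * S ^ i) : H →L[ℂ] H) : H →ₗ[ℂ] H)
        = ∑ i ∈ Finset.range m, ((C i * (F i * S ^ i) : H →L[ℂ] H) : H →ₗ[ℂ] H) := by
      ext x
      simp
    rw [this, Nat.cast_sum]
    refine (LinearMap.rank_finsetSum_le _ _).trans (Finset.sum_le_sum fun i _ => ?_)
    have h1 : ((C i * (F i * S ^ i) : H →L[ℂ] H) : H →ₗ[ℂ] H)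
        = (C i : H →ₗ[ℂ] H).comp ((F i : H →ₗ[ℂ] H).comp ((S ^ i : H →L[ℂ] H) : H →ₗ[ℂ] H)) := rfl
    rw [h1]
    refine (LinearMap.rank_comp_le_right _ _).trans ?_
    exact (LinearMap.rank_comp_le_left _ _).trans (hF i)
  refine (approxNumber_le D G _ hrank).trans ?_
  have hsub := hD.sub hG
  have hterm : ∀ n, b n • (T ^ n - S ^ n) - ∑ i ∈ Finset.range m, c i n * (F i * S ^ i)
      = b n • ∑ i ∈ Finset.range n, T ^ (n - 1 - i) * ((T - S) - F i) * S ^ i := by
    intro n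
    have h1 : ∑ i ∈ Finset.range m, c i n * (F i * S ^ i)
        = ∑ i ∈ Finset.range n, b n • (T ^ (n - 1 - i) * F i * S ^ i) := by
      have h2 : ∑ i ∈ Finset.range m, c i n * (F i * S ^ i)
          = ∑ i ∈ (Finset.range m ∪ Finset.range n), c i n * (F i * S ^ i) := by
        refine Finset.sum_subset Finset.subset_union_left fun i _ hi => ?_
        rw [hF0 i (by simpa using hi)]
        simp
      have h3 : ∑ i ∈ Finset.range n, b n • (T ^ (n - 1 - i) * F i * S ^ i)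
          = ∑ i ∈ (Finset.range m ∪ Finset.range n), c i n * (F i * S ^ i) := by
        rw [← Finset.sum_subset (Finset.subset_union_right (s₁ := Finset.range m) (s₂ := Finset.range n))
          (f := fun i => c i n * (F i * S ^ i))]
        · refine Finset.sum_congr rfl fun i hi => ?_
          simp only [c, if_pos (Finset.mem_range.1 hi)]
          rw [smul_mul_assoc, mul_assoc]
        · intro i _ hi
          simp only [c]
          rw [if_neg (by simpa using hi), zero_mul]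
      rw [h2, h3]
    rw [h1, telescope T S n, ← Finset.smul_sum, ← smul_sub, ← Finset.sum_sub_distrib]
    congr 1
    refine Finset.sum_congr rfl fun i _ => ?_
    noncomm_ring
  rw [← hsub.tsum_eq]
  refine (enorm_tsum_le_tsum_enorm).trans ?_
  rw [← ENNReal.tsum_mul_right]
  refine ENNReal.tsum_le_tsum fun n => ?_
  rw [hterm n, enorm_smul]
  gcongr
  refine (enorm_sum_le _ _).trans ?_
  refine le_trans ?_ (ENNReal.sum_le_tsum (Finset.range n))
  refine Finset.sum_le_sum fun i _ => ?_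
  calc ‖T ^ (n - 1 - i) * ((T - S) - F i) * S ^ i‖ₑ
      ≤ ‖T ^ (n - 1 - i) * ((T - S) - F i)‖ₑ * ‖S ^ i‖ₑ := enorm_mul_le' _ _
    _ ≤ (‖T ^ (n - 1 - i)‖ₑ * ‖(T - S) - F i‖ₑ) * ‖S ^ i‖ₑ := by
        gcongr; exact enorm_mul_le' _ _
    _ ≤ (1 * ‖(T - S) - F i‖ₑ) * ‖S‖ₑ ^ i := by
        gcongr
        · exact enorm_pow_le_one T hT _
        · exact enorm_pow_le_pow S i
    _ = ‖S‖ₑ ^ i * ‖(T - S) - F i‖ₑ := by ring





lemma approxNumber_zero (X : H →L[ℂ] H) : approxNumber X 0 = ‖X‖ₑ := by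
  refine le_antisymm (approxNumber_le_norm X 0) ?_
  refine le_iInf₂ fun F hF => ?_
  have h0 : (F : H →ₗ[ℂ] H) = 0 := by
    have : (F : H →ₗ[ℂ] H).rank = 0 := le_antisymm (by simpa using hF) zero_le
    rw [LinearMap.rank, rank_zero_iff_forall_zero] at this
    ext x
    have h2 := this ⟨(F : H →ₗ[ℂ] H) x, ⟨x, rfl⟩⟩
    simpa using congrArg Subtype.val h2
  have : F = 0 := by
    ext x
    simpa using congrArg (fun g : H →ₗ[ℂ] H => g x) h0
  rw [this, sub_zero]

lemma approx_series' (hT : ‖T‖ ≤ 1) (hS : ‖S‖ < 1) (hb : Summable fun n => ‖b n‖)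
    (D : H →L[ℂ] H) (hD : HasSum (fun n => b n • (T ^ n - S ^ n)) D)
    (m : ℕ) (κ : ℕ → ℕ) (hκ : ∀ i, m ≤ i → κ i = 0) :
    approxNumber D (∑ i ∈ Finset.range m, κ i) ≤
      (∑' n, ‖b n‖ₑ) * ∑' i, ‖S‖ₑ ^ i * approxNumber (T - S) (κ i) := by
  classical
  have hSe : ‖S‖ₑ < 1 := by
    rw [← ofReal_norm]
    exact ENNReal.ofReal_lt_one.2 hS
  have hB : (∑' n, ‖b n‖ₑ) ≠ ⊤ := by
    have := hb
    rw [← tsum_congr (fun n => ofReal_norm (b n))]
    rw [← ENNReal.ofReal_tsum_of_nonneg (fun n => norm_nonneg _) hb]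
    exact ENNReal.ofReal_ne_top
  set B := ∑' n, ‖b n‖ₑ with hBdef
  have hgeo : (∑' i : ℕ, ‖S‖ₑ ^ i) ≠ ⊤ := by
    rw [ENNReal.tsum_geometric]
    exact ENNReal.inv_ne_top.2 (tsub_pos_iff_lt.2 hSe).ne'
  set K := B * ∑' i : ℕ, ‖S‖ₑ ^ i with hK
  have hKfin : K ≠ ⊤ := ENNReal.mul_ne_top hB hgeo
  refine ENNReal.le_of_forall_pos_le_add fun δ hδ _ => ?_
  -- choose ε
  obtain ⟨ε, hε, hεK⟩ : ∃ ε : ℝ≥0∞, ε ≠ 0 ∧ K * ε ≤ δ := by
    refine ⟨δ / (K + 1), ?_, ?_⟩
    · exact (ENNReal.div_pos (by exact_mod_cast hδ.ne') (by simp [hKfin])).ne'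
    · calc K * (δ / (K + 1)) ≤ (K + 1) * (δ / (K + 1)) := by gcongr; exact le_self_add
        _ = δ := ENNReal.mul_div_cancel (by simp) (by simp [hKfin])
  choose F hF1 hF2 using fun i => exists_approx (T - S) (κ i) ε hε
  let F' : ℕ → H →L[ℂ] H := fun i => if m ≤ i then 0 else F i
  have hF'1 : ∀ i, (F' i : H →ₗ[ℂ] H).rank ≤ κ i := by
    intro i
    by_cases h : m ≤ i
    · simp [F', h]
    · simp only [F', if_neg h]
      exact hF1 i
  have hF'2 : ∀ i, ‖(T - S) - F' i‖ₑ ≤ approxNumber (T - S) (κ i) + ε := by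
    intro i
    by_cases h : m ≤ i
    · simp only [F', if_pos h, sub_zero]
      rw [hκ i h, approxNumber_zero]
      exact le_self_add
    · simp only [F', if_neg h]
      exact hF2 i
  have hF'0 : ∀ i, m ≤ i → F' i = 0 := fun i hi => by simp [F', hi]
  refine (approx_series T S b hT hb D hD m κ F' hF'1 hF'0).trans ?_
  rw [← hBdef]
  calc B * ∑' i, ‖S‖ₑ ^ i * ‖(T - S) - F' i‖ₑ
      ≤ B * ∑' i, (‖S‖ₑ ^ i * approxNumber (T - S) (κ i) + ‖S‖ₑ ^ i * ε) := by
        gcongr with i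
        rw [← mul_add]
        gcongr
        exact hF'2 i
    _ = B * (∑' i, ‖S‖ₑ ^ i * approxNumber (T - S) (κ i)) + K * ε := by
        rw [ENNReal.tsum_add, mul_add, ENNReal.tsum_mul_right, hK]
        ring
    _ ≤ B * (∑' i, ‖S‖ₑ ^ i * approxNumber (T - S) (κ i)) + δ := by gcongr

end Strict

lemma tsum_div_eq (N : ℕ) (hN : N ≠ 0) (g : ℕ → ℝ≥0∞) :
    ∑' k, g (k / N) = N * ∑' m, g m := by
  have : NeZero N := ⟨hN⟩
  rw [← (Nat.divModEquiv N).symm.tsum_eq (fun k => g (k / N))]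
  rw [ENNReal.tsum_prod']
  have : ∀ a : ℕ, ∑' (b : Fin N), g ((Nat.divModEquiv N).symm (a, b) / N) = N * g a := by
    intro a
    have h1 : ∀ b : Fin N, g ((Nat.divModEquiv N).symm (a, b) / N) = g a := by
      intro b
      congr 1
      have := congrArg Prod.fst ((Nat.divModEquiv N).apply_symm_apply (a, b))
      simpa [Nat.divModEquiv] using this
    simp_rw [h1]
    simp
  simp_rw [this]
  rw [ENNReal.tsum_mul_left]

/-- elementary substitute for Jensen's inequality -/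
lemma rpow_tsum_le (p : ℝ) (hp : 0 ≤ p) (w x : ℕ → ℝ≥0∞) :
    (∑' i, w i * (w i * x i)) ^ p ≤ (∑' i, w i) ^ p * ∑' i, (w i * x i) ^ p := by
  have h1 : ∑' i, w i * (w i * x i) ≤ (∑' i, w i) * ⨆ i, (w i * x i) := by
    rw [← ENNReal.tsum_mul_right]
    gcongr with i
    exact le_iSup (fun i => w i * x i) i
  calc (∑' i, w i * (w i * x i)) ^ p ≤ ((∑' i, w i) * ⨆ i, (w i * x i)) ^ p := by gcongr
    _ = (∑' i, w i) ^ p * (⨆ i, (w i * x i)) ^ p := ENNReal.mul_rpow_of_nonneg _ _ hp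
    _ ≤ (∑' i, w i) ^ p * ∑' i, (w i * x i) ^ p := by
        gcongr
        rcases hp.eq_or_lt with rfl | hp'
        · simp only [ENNReal.rpow_zero]
          exact ENNReal.le_tsum (f := fun _ : ℕ => (1 : ℝ≥0∞)) 0
        · have : (⨆ i, (w i * x i)) ≤ (∑' i, (w i * x i) ^ p) ^ p⁻¹ := by
            refine iSup_le fun i => ?_
            rw [ENNReal.le_rpow_inv_iff hp']
            exact ENNReal.le_tsum (f := fun i => (w i * x i) ^ p) i
          rw [← ENNReal.le_rpow_inv_iff hp']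
          exact this



/-- block lengths -/
noncomputable def blk (t : ℝ) (i : ℕ) : ℕ := ⌈((1 - t) * t ^ i)⁻¹⌉₊

lemma blk_ge (t : ℝ) (i : ℕ) : ((1 - t) * t ^ i)⁻¹ ≤ (blk t i : ℝ) := Nat.le_ceil _

lemma blk_pos {t : ℝ} (ht0 : 0 < t) (ht1 : t < 1) (i : ℕ) : 0 < blk t i := by
  unfold blk
  rw [Nat.ceil_pos]
  have : 0 < 1 - t := by linarith
  positivity

lemma blk_le {t : ℝ} (ht0 : 0 < t) (ht1 : t < 1) (i : ℕ) :
    (blk t i : ℝ) ≤ 2 * ((1 - t) * t ^ i)⁻¹ := by
  have h1 : 0 < 1 - t := by linarith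
  have hpos : 0 < (1 - t) * t ^ i := by positivity
  have h2 : (blk t i : ℝ) < ((1 - t) * t ^ i)⁻¹ + 1 := Nat.ceil_lt_add_one (by positivity)
  have h3 : (1 : ℝ) ≤ ((1 - t) * t ^ i)⁻¹ := by
    rw [one_le_inv₀ hpos]
    have : t ^ i ≤ 1 := pow_le_one₀ ht0.le ht1.le
    nlinarith [pow_pos ht0 i]
  linarith

lemma sum_div_blk_le {t : ℝ} (ht0 : 0 < t) (ht1 : t < 1) (k m : ℕ) :
    ∑ i ∈ Finset.range m, k / blk t i ≤ k := by
  have h1 : 0 < 1 - t := by linarith
  have hgeo : ∑ i ∈ Finset.range m, (1 - t) * t ^ i ≤ 1 := by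
    rw [← Finset.mul_sum, geom_sum_eq ht1.ne]
    have h2 : (1 - t) * ((t ^ m - 1) / (t - 1)) = 1 - t ^ m := by
      have : t - 1 ≠ 0 := by linarith
      field_simp
      ring
    rw [h2]
    have := pow_pos ht0 m
    linarith
  have : ((∑ i ∈ Finset.range m, k / blk t i : ℕ) : ℝ) ≤ (k : ℝ) := by
    push_cast
    calc ∑ i ∈ Finset.range m, ((k / blk t i : ℕ) : ℝ)
        ≤ ∑ i ∈ Finset.range m, (k : ℝ) * ((1 - t) * t ^ i) := by
          refine Finset.sum_le_sum fun i _ => ?_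
          refine Nat.cast_div_le.trans ?_
          rw [div_eq_mul_inv]
          have hb := blk_ge t i
          have hpos : 0 < (1 - t) * t ^ i := by positivity
          have : ((blk t i : ℝ))⁻¹ ≤ (1 - t) * t ^ i := by
            rw [inv_le_comm₀ (by exact_mod_cast blk_pos ht0 ht1 i) hpos]
            exact hb
          gcongr
      _ = (k : ℝ) * ∑ i ∈ Finset.range m, (1 - t) * t ^ i := by rw [Finset.mul_sum]
      _ ≤ (k : ℝ) * 1 := by gcongr
      _ = k := mul_one _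
  exact_mod_cast this

lemma exists_blk_gt {t : ℝ} (ht0 : 0 < t) (ht1 : t < 1) (k : ℕ) :
    ∃ m, ∀ i, m ≤ i → k / blk t i = 0 := by
  have h1 : 0 < 1 - t := by linarith
  have hlim : Tendsto (fun i : ℕ => (k + 1 : ℝ) * ((1 - t) * t ^ i)) atTop (𝓝 0) := by
    have := (tendsto_pow_atTop_nhds_zero_of_lt_one ht0.le ht1).const_mul ((k + 1 : ℝ) * (1 - t))
    simpa [mul_assoc] using this
  obtain ⟨m, hm⟩ := (hlim.eventually (gt_mem_nhds (zero_lt_one))).exists_forall_of_atTop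
  refine ⟨m, fun i hi => Nat.div_eq_of_lt ?_⟩
  have hpos : 0 < (1 - t) * t ^ i := by positivity
  have h2 : ((k : ℝ) + 1) < ((1 - t) * t ^ i)⁻¹ := by
    rw [← one_div, lt_div_iff₀ hpos]
    exact hm i hi
  have h3 := blk_ge t i
  have : (k : ℝ) < blk t i := by linarith
  exact_mod_cast this

/-- the constant in the estimate for strict contractions. -/
noncomputable def cst (p : ℝ) (t : ℝ) (B : ℝ≥0∞) : ℝ≥0∞ :=
  B ^ p * ((∑' i : ℕ, (ENNReal.ofReal (t ^ (2 * i)))) ^ p * ENNReal.ofReal (2 * (1 - t)⁻¹ * (1 - t)⁻¹))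

lemma tsum_ofReal_pow {t : ℝ} (ht0 : 0 < t) (ht1 : t < 1) :
    (∑' i : ℕ, (ENNReal.ofReal (t ^ (2 * i)))) ≠ ⊤ := by
  have h : Summable fun i : ℕ => t ^ (2 * i) := by
    simp_rw [pow_mul]
    exact summable_geometric_of_lt_one (by positivity) (by nlinarith)
  rw [← ENNReal.ofReal_tsum_of_nonneg (fun i => by positivity) h]
  exact ENNReal.ofReal_ne_top

lemma cst_ne_top {p : ℝ} (hp : 0 ≤ p) {t : ℝ} (ht0 : 0 < t) (ht1 : t < 1) {B : ℝ≥0∞} (hB : B ≠ ⊤) :
    cst p t B ≠ ⊤ := by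
  unfold cst
  refine ENNReal.mul_ne_top (ENNReal.rpow_ne_top_of_nonneg hp hB) (ENNReal.mul_ne_top ?_ ENNReal.ofReal_ne_top)
  exact ENNReal.rpow_ne_top_of_nonneg hp (tsum_ofReal_pow ht0 ht1)

lemma schattenSum_series_le {p : ℝ} (hp : 1 ≤ p) (T S : H →L[ℂ] H) (b : ℕ → ℂ) (hT : ‖T‖ ≤ 1)
    {t : ℝ} (ht0 : 0 < t) (ht1 : t < 1) (hS : ‖S‖ ≤ t ^ 4) (hb : Summable fun n => ‖b n‖)
    (D : H →L[ℂ] H) (hD : HasSum (fun n => b n • (T ^ n - S ^ n)) D) :
    schattenSum p D ≤ cst p t (∑' n, ‖b n‖ₑ) * schattenSum p (T - S) := by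
  have hp0 : 0 ≤ p := by linarith
  have h1t : 0 < 1 - t := by linarith
  have hS1 : ‖S‖ < 1 := lt_of_le_of_lt hS (pow_lt_one₀ ht0.le ht1 (by norm_num))
  set B := ∑' n, ‖b n‖ₑ with hB
  let w : ℕ → ℝ≥0∞ := fun i => ENNReal.ofReal (t ^ (2 * i))
  have hSw : ∀ i, ‖S‖ₑ ^ i ≤ w i * w i := by
    intro i
    simp only [w]
    rw [← ENNReal.ofReal_mul (by positivity), ← ofReal_norm, ← ENNReal.ofReal_pow (norm_nonneg _)]
    refine ENNReal.ofReal_le_ofReal ?_
    calc ‖S‖ ^ i ≤ (t ^ 4) ^ i := by gcongr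
      _ = t ^ (2 * i) * t ^ (2 * i) := by rw [← pow_mul, ← pow_add]; congr 1; ring
  have hmain : ∀ k, approxNumber D k ≤ B * ∑' i, w i * (w i * approxNumber (T - S) (k / blk t i)) := by
    intro k
    obtain ⟨m, hm⟩ := exists_blk_gt ht0 ht1 k
    have h1 := approx_series' T S b hT hS1 hb D hD m (fun i => k / blk t i) hm
    refine (approxNumber_antitone D (sum_div_blk_le ht0 ht1 k m)).trans (h1.trans ?_)
    refine mul_le_mul' le_rfl (ENNReal.tsum_le_tsum fun i => ?_)
    rw [← mul_assoc]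
    exact mul_le_mul' (hSw i) le_rfl
  have hpow : ∀ k, approxNumber D k ^ p ≤ B ^ p * ((∑' i, w i) ^ p *
      ∑' i, (w i * approxNumber (T - S) (k / blk t i)) ^ p) := by
    intro k
    calc approxNumber D k ^ p
        ≤ (B * ∑' i, w i * (w i * approxNumber (T - S) (k / blk t i))) ^ p := by
          gcongr; exact hmain k
      _ = B ^ p * (∑' i, w i * (w i * approxNumber (T - S) (k / blk t i))) ^ p :=
          ENNReal.mul_rpow_of_nonneg _ _ hp0
      _ ≤ _ := by
          gcongr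
          exact rpow_tsum_le p hp0 w (fun i => approxNumber (T - S) (k / blk t i))
  have hw : ∀ i, w i ^ p * (blk t i : ℝ≥0∞) ≤ ENNReal.ofReal (2 * (1 - t)⁻¹ * t ^ i) := by
    intro i
    have hw1 : w i ^ p ≤ w i := by
      have hle : w i ≤ 1 := by
        simp only [w]
        exact ENNReal.ofReal_le_one.2 (pow_le_one₀ ht0.le ht1.le)
      calc w i ^ p ≤ w i ^ (1 : ℝ) := ENNReal.rpow_le_rpow_of_exponent_ge hle hp
        _ = w i := ENNReal.rpow_one _
    calc w i ^ p * (blk t i : ℝ≥0∞) ≤ w i * (blk t i : ℝ≥0∞) := by gcongr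
      _ = ENNReal.ofReal (t ^ (2 * i) * (blk t i : ℝ)) := by
          rw [ENNReal.ofReal_mul (by positivity), ENNReal.ofReal_natCast]
      _ ≤ ENNReal.ofReal (2 * (1 - t)⁻¹ * t ^ i) := by
          refine ENNReal.ofReal_le_ofReal ?_
          calc t ^ (2 * i) * (blk t i : ℝ) ≤ t ^ (2 * i) * (2 * ((1 - t) * t ^ i)⁻¹) := by
                gcongr
                exact blk_le ht0 ht1 i
            _ = 2 * (1 - t)⁻¹ * t ^ i := by
                have : t ^ i ≠ 0 := by positivity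
                have h2 : t ^ (2 * i) = t ^ i * t ^ i := by rw [two_mul, pow_add]
                rw [h2, mul_inv]
                field_simp
  calc schattenSum p D = ∑' k, approxNumber D k ^ p := rfl
    _ ≤ ∑' k, B ^ p * ((∑' i, w i) ^ p *
          ∑' i, (w i * approxNumber (T - S) (k / blk t i)) ^ p) := ENNReal.tsum_le_tsum hpow
    _ = B ^ p * ((∑' i, w i) ^ p *
          ∑' k, ∑' i, (w i * approxNumber (T - S) (k / blk t i)) ^ p) := by
        rw [ENNReal.tsum_mul_left, ENNReal.tsum_mul_left]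
    _ = B ^ p * ((∑' i, w i) ^ p *
          ∑' i, ∑' k, (w i * approxNumber (T - S) (k / blk t i)) ^ p) := by
        rw [ENNReal.tsum_comm]
    _ = B ^ p * ((∑' i, w i) ^ p *
          ∑' i, (w i ^ p * (blk t i : ℝ≥0∞)) * schattenSum p (T - S)) := by
        congr 2
        refine tsum_congr fun i => ?_
        have : ∀ k, (w i * approxNumber (T - S) (k / blk t i)) ^ p
            = w i ^ p * approxNumber (T - S) (k / blk t i) ^ p := fun k =>
          ENNReal.mul_rpow_of_nonneg _ _ hp0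
        simp_rw [this]
        rw [ENNReal.tsum_mul_left, tsum_div_eq (blk t i) (blk_pos ht0 ht1 i).ne'
          (fun k => approxNumber (T - S) k ^ p), ← mul_assoc]
        rfl
    _ ≤ B ^ p * ((∑' i, w i) ^ p *
          ∑' i, (ENNReal.ofReal (2 * (1 - t)⁻¹ * t ^ i)) * schattenSum p (T - S)) := by
        gcongr with i
        exact hw i
    _ = B ^ p * ((∑' i, w i) ^ p *
          (ENNReal.ofReal (2 * (1 - t)⁻¹ * (1 - t)⁻¹) * schattenSum p (T - S))) := by
        rw [ENNReal.tsum_mul_right]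
        congr 3
        rw [← ENNReal.ofReal_tsum_of_nonneg (fun i => by positivity)
          ((summable_geometric_of_lt_one ht0.le ht1).mul_left _), tsum_mul_left,
          tsum_geometric_of_lt_one ht0.le ht1]
    _ = cst p t B * schattenSum p (T - S) := by
        unfold cst
        ring

end Approx

end Pool.Agent.H93.Schatten
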