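import Pool.Agent.H93.Schatten.Fourier

open scoped ENNReal InnerProductSpace Real
open Filter Topology MeasureTheory ContinuousLinearMap

namespace Pool.Agent.H93.Schatten

universe u

/-! ## Unitary dilations -/

section Dilation

variable {H : Type u} [NormedAddCommGroup H] [InnerProductSpace ℂ H] [CompleteSpace H]

lemma defect_inner (T : H →L[ℂ] H) (x : H) :
    ⟪(1 - adjoint T * T : H →L[ℂ] H) x, x⟫_ℂ = ((‖x‖ ^ 2 - ‖T x‖ ^ 2 : ℝ) : ℂ) := by
  have h : (1 - adjoint T * T : H →L[ℂ] H) x = x - adjoint T (T x) := rfl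
  rw [h, inner_sub_left, adjoint_inner_left, inner_self_eq_norm_sq_to_K, inner_self_eq_norm_sq_to_K]
  push_cast
  rfl

lemma exists_defect (T : H →L[ℂ] H) (hT : ‖T‖ ≤ 1) :
    ∃ D : H →L[ℂ] H, ∀ x, ‖D x‖ ^ 2 = ‖x‖ ^ 2 - ‖T x‖ ^ 2 := by
  have hpos : (0 : H →L[ℂ] H) ≤ 1 - adjoint T * T := by
    rw [ContinuousLinearMap.nonneg_iff_isPositive, ContinuousLinearMap.isPositive_iff_complex]
    intro x
    rw [defect_inner]
    constructor
    · simp only [RCLike.re_to_complex, Complex.ofReal_re]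
    · simp only [Complex.ofReal_re, RCLike.re_to_complex]
      have h2 : ‖T x‖ ≤ ‖x‖ := by
        calc ‖T x‖ ≤ ‖T‖ * ‖x‖ := T.le_opNorm x
          _ ≤ 1 * ‖x‖ := by gcongr
          _ = ‖x‖ := one_mul _
      have := norm_nonneg (T x)
      nlinarith [norm_nonneg x]
  refine ⟨CFC.sqrt (1 - adjoint T * T), fun x => ?_⟩
  set D : H →L[ℂ] H := CFC.sqrt (1 - adjoint T * T) with hD
  have hD1 : D * D = 1 - adjoint T * T := CFC.sqrt_mul_sqrt_self _ hpos
  have hD2 : adjoint D = D := by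
    have : IsSelfAdjoint D := IsSelfAdjoint.of_nonneg (CFC.sqrt_nonneg _)
    exact this.star_eq
  have h1 : ((‖D x‖ ^ 2 : ℝ) : ℂ) = ((‖x‖ ^ 2 - ‖T x‖ ^ 2 : ℝ) : ℂ) := by
    rw [← defect_inner, ← hD1]
    have h2 : (D * D) x = D (D x) := rfl
    rw [h2]
    have h3 : ⟪D (D x), x⟫_ℂ = ⟪D x, D x⟫_ℂ := by
      conv_lhs => rw [← hD2]
      rw [adjoint_inner_left]
      rw [hD2]
    rw [h3, inner_self_eq_norm_sq_to_K]
    push_cast
    rfl
  exact_mod_cast h1

/-- `ℓ²(ℕ, H)` -/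
abbrev K0 (H : Type u) [NormedAddCommGroup H] : Type u := lp (fun _ : ℕ => H) 2

def shiftFun (T D : H →L[ℂ] H) (x : ℕ → H) : ℕ → H
  | 0 => T (x 0)
  | 1 => D (x 0)
  | n + 2 => x (n + 1)

lemma hasSum_norm_sq (x : K0 H) : HasSum (fun n => ‖x n‖ ^ 2) (‖x‖ ^ 2) := by
  have h := lp.hasSum_norm (p := 2) (by norm_num) x
  simpa using h

lemma hasSum_shiftFun (T D : H →L[ℂ] H) (hD : ∀ x, ‖D x‖ ^ 2 = ‖x‖ ^ 2 - ‖T x‖ ^ 2) (x : K0 H) :
    HasSum (fun n => ‖shiftFun T D x n‖ ^ 2) (‖x‖ ^ 2) := by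
  have h := hasSum_norm_sq x
  have h1 := (hasSum_nat_add_iff' 1).2 h
  rw [← hasSum_nat_add_iff' 2]
  simp only [shiftFun, Finset.sum_range_succ, Finset.sum_range_zero, zero_add] at h1 ⊢
  have : ‖x‖ ^ 2 - (‖T (x 0)‖ ^ 2 + ‖D (x 0)‖ ^ 2) = ‖x‖ ^ 2 - ‖x 0‖ ^ 2 := by
    rw [hD]; ring
  rw [this]
  exact h1

/-- the isometric dilation -/
noncomputable def isoDil (T D : H →L[ℂ] H) (hD : ∀ x, ‖D x‖ ^ 2 = ‖x‖ ^ 2 - ‖T x‖ ^ 2) :
    K0 H →ₗᵢ[ℂ] K0 H where
  toFun x := ⟨shiftFun T D x, by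
    refine memℓp_gen ?_
    have := (hasSum_shiftFun T D hD x).summable
    simpa using this⟩
  map_add' x y := by
    ext n
    rcases n with _ | _ | n
    · change T ((x + y : K0 H) 0) = T (x 0) + T (y 0)
      simp
    · change D ((x + y : K0 H) 0) = D (x 0) + D (y 0)
      simp
    · change (x + y : K0 H) (n + 1) = x (n + 1) + y (n + 1)
      simp
  map_smul' c x := by
    ext n
    rcases n with _ | _ | n
    · change T ((c • x : K0 H) 0) = c • T (x 0)
      simp
    · change D ((c • x : K0 H) 0) = c • D (x 0)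
      simp
    · change (c • x : K0 H) (n + 1) = c • x (n + 1)
      simp
  norm_map' x := by
    have h1 := hasSum_shiftFun T D hD x
    have h2 := hasSum_norm_sq (⟨shiftFun T D x, by
      refine memℓp_gen ?_
      have := (hasSum_shiftFun T D hD x).summable
      simpa using this⟩ : K0 H)
    have h3 := h2.unique h1
    exact (sq_eq_sq₀ (norm_nonneg _) (norm_nonneg _)).1 h3

lemma isoDil_zero (T D : H →L[ℂ] H) (hD : ∀ x, ‖D x‖ ^ 2 = ‖x‖ ^ 2 - ‖T x‖ ^ 2) (x : K0 H) :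
    (isoDil T D hD x) 0 = T (x 0) := rfl

section Halmos
variable {K : Type u} [NormedAddCommGroup K] [InnerProductSpace ℂ K] [CompleteSpace K]

lemma halmos_norm (W : K →ₗᵢ[ℂ] K) (x y : K) :
    ‖W x + (y - W (adjoint W.toContinuousLinearMap y))‖ ^ 2 + ‖adjoint W.toContinuousLinearMap y‖ ^ 2
      = ‖x‖ ^ 2 + ‖y‖ ^ 2 := by
  set W' := adjoint W.toContinuousLinearMap with hW'
  have hWW : ∀ x, W' (W x) = x := by
    intro x
    refine ext_inner_right ℂ fun v => ?_
    rw [hW', adjoint_inner_left]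
    exact W.inner_map_map x v
  have horth : ∀ v, ⟪W v, y - W (W' y)⟫_ℂ = 0 := by
    intro v
    rw [inner_sub_right, W.inner_map_map]
    have : ⟪W v, y⟫_ℂ = ⟪v, W' y⟫_ℂ := by
      rw [hW', adjoint_inner_right]
      rfl
    rw [this, sub_self]
  have h1 : ‖W x + (y - W (W' y))‖ ^ 2 = ‖x‖ ^ 2 + ‖y - W (W' y)‖ ^ 2 := by
    have := norm_add_sq_eq_norm_sq_add_norm_sq_of_inner_eq_zero (𝕜 := ℂ) (W x) (y - W (W' y)) (horth x)
    rw [W.norm_map] at this
    nlinarith [this]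
  have h2 : ‖y‖ ^ 2 = ‖W' y‖ ^ 2 + ‖y - W (W' y)‖ ^ 2 := by
    have := norm_add_sq_eq_norm_sq_add_norm_sq_of_inner_eq_zero (𝕜 := ℂ) (W (W' y)) (y - W (W' y)) (horth _)
    rw [W.norm_map, add_sub_cancel] at this
    nlinarith [this]
  rw [h1, h2]
  ring

lemma adjoint_iso_apply (W : K →ₗᵢ[ℂ] K) (x : K) : adjoint W.toContinuousLinearMap (W x) = x := by
  refine ext_inner_right ℂ fun v => ?_
  rw [adjoint_inner_left]
  exact W.inner_map_map x v

/-- Halmos unitary extension -/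
noncomputable def halmos (W : K →ₗᵢ[ℂ] K) : WithLp 2 (K × K) ≃ₗᵢ[ℂ] WithLp 2 (K × K) where
  toFun z := WithLp.toLp 2 (W z.fst + (z.snd - W (adjoint W.toContinuousLinearMap z.snd)),
    adjoint W.toContinuousLinearMap z.snd)
  invFun z := WithLp.toLp 2 (adjoint W.toContinuousLinearMap z.fst,
    (z.fst - W (adjoint W.toContinuousLinearMap z.fst)) + W z.snd)
  map_add' z w := by
    apply (WithLp.equiv 2 (K × K)).injective
    refine Prod.ext ?_ ?_
    · simp
      abel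
    · simp
  map_smul' c z := by
    apply (WithLp.equiv 2 (K × K)).injective
    refine Prod.ext ?_ ?_
    · simp [smul_sub]
    · simp
  left_inv z := by
    apply (WithLp.equiv 2 (K × K)).injective
    refine Prod.ext ?_ ?_
    · simp [adjoint_iso_apply]
    · simp [adjoint_iso_apply]
  right_inv z := by
    apply (WithLp.equiv 2 (K × K)).injective
    refine Prod.ext ?_ ?_
    · simp [adjoint_iso_apply]
    · simp [adjoint_iso_apply]
  norm_map' z := by
    have h := halmos_norm W z.fst z.snd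
    refine (sq_eq_sq₀ (norm_nonneg _) (norm_nonneg _)).1 ?_
    rw [WithLp.prod_norm_sq_eq_of_L2, WithLp.prod_norm_sq_eq_of_L2]
    exact h

lemma halmos_fst (W : K →ₗᵢ[ℂ] K) (x : K) :
    halmos W (WithLp.toLp 2 (x, 0)) = WithLp.toLp 2 (W x, 0) := by
  change WithLp.toLp 2 _ = _
  simp

end Halmos

open Classical in
/-- the inclusion `H → K` -/
noncomputable def inclDil (H : Type u) [NormedAddCommGroup H] [InnerProductSpace ℂ H] [CompleteSpace H] :
    H →ₗᵢ[ℂ] WithLp 2 (K0 H × K0 H) where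
  toFun h := WithLp.toLp 2 (lp.single 2 0 h, 0)
  map_add' x y := by
    apply (WithLp.equiv 2 (K0 H × K0 H)).injective
    refine Prod.ext ?_ ?_
    · simp [lp.single_add]
    · simp
  map_smul' c x := by
    apply (WithLp.equiv 2 (K0 H × K0 H)).injective
    refine Prod.ext ?_ ?_
    · simp [lp.single_smul]
    · simp
  norm_map' x := by
    refine (sq_eq_sq₀ (norm_nonneg _) (norm_nonneg _)).1 ?_
    rw [WithLp.prod_norm_sq_eq_of_L2]
    simp [lp.norm_single]

/-- **Sz.-Nagy dilation theorem** : every contraction has a unitary dilation. -/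
theorem exists_isUnitaryDilation (T : H →L[ℂ] H) (hT : ‖T‖ ≤ 1) :
    ∃ (V : H →ₗᵢ[ℂ] WithLp 2 (K0 H × K0 H)) (U : WithLp 2 (K0 H × K0 H) →L[ℂ] WithLp 2 (K0 H × K0 H)),
      IsUnitaryDilation T V U := by
  classical
  obtain ⟨D, hD⟩ := exists_defect T hT
  let W := isoDil T D hD
  let e := halmos W
  let Uop : WithLp 2 (K0 H × K0 H) →L[ℂ] WithLp 2 (K0 H × K0 H) :=
    ((Unitary.linearIsometryEquiv.symm e :
      unitary (WithLp 2 (K0 H × K0 H) →L[ℂ] WithLp 2 (K0 H × K0 H))) :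
      WithLp 2 (K0 H × K0 H) →L[ℂ] WithLp 2 (K0 H × K0 H))
  refine ⟨inclDil H, Uop, ?_, ?_⟩
  · exact (Unitary.linearIsometryEquiv.symm e).2
  · intro n
    have hpow : ∀ (n : ℕ) (x : K0 H), (Uop ^ n)
        (WithLp.toLp 2 (x, (0 : K0 H))) = WithLp.toLp 2 ((W.toContinuousLinearMap ^ n) x, (0 : K0 H)) := by
      intro n
      induction n with
      | zero => intro x; rfl
      | succ n ih =>
        intro x
        rw [pow_succ, pow_succ]
        change (Uop ^ n) (e (WithLp.toLp 2 (x, (0 : K0 H)))) = _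
        rw [show e (WithLp.toLp 2 (x, (0 : K0 H))) = WithLp.toLp 2 (W x, (0 : K0 H)) from
          halmos_fst W x, ih]
        rfl
    have hW0 : ∀ (n : ℕ) (x : K0 H), ((W.toContinuousLinearMap ^ n) x) 0 = (T ^ n) (x 0) := by
      intro n
      induction n with
      | zero => intro x; rfl
      | succ n ih =>
        intro x
        rw [pow_succ, pow_succ]
        change ((W.toContinuousLinearMap ^ n) (W x)) 0 = (T ^ n) (T (x 0))
        rw [ih]
        rfl
    ext h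
    refine ext_inner_right ℂ fun g => ?_
    simp only [ContinuousLinearMap.comp_apply]
    rw [adjoint_inner_left]
    let sg : H → K0 H := fun h => lp.single 2 0 h
    change _ = ⟪(Uop ^ n) (WithLp.toLp 2 (sg h, (0 : K0 H))), WithLp.toLp 2 (sg g, (0 : K0 H))⟫_ℂ
    rw [hpow, WithLp.prod_inner_apply]
    simp only [inner_zero_left, add_zero]
    rw [lp.inner_single_right, hW0]
    simp [sg]

end Dilation

end Pool.Agent.H93.Schatten
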