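import Pool.Agent.H93.Schatten.Fourier

open scoped ENNReal InnerProductSpace Real
open Filter Topology MeasureTheory ContinuousLinearMap

namespace Pool.Agent.H93.Schatten

universe u

/-! ## The example -/

lemma toCircle_coe_eq (h : ℝ) :
    (AddCircle.toCircle (h : UnitAddCircle) : ℂ) = Complex.exp (Complex.I * ((2 * π * h : ℝ) : ℂ)) := by
  have := fourier_coe_apply (T := (1 : ℝ)) (n := 1) (x := h)
  rw [fourier_one] at this
  rw [this]
  congr 1
  push_cast
  ring

/-- a disc algebra function has vanishing `-1`-st Fourier coefficient -/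
lemma coef_neg_one_of_inDiskAlgebra {f : ℂ → ℂ} (hf : InDiskAlgebra f) : coef f (-1) = 0 := by
  obtain ⟨g, hg1, hg2, hg3⟩ := hf
  have h0 := Complex.circleIntegral_eq_zero_of_differentiable_on_off_countable (R := 1) zero_le_one
    (c := (0 : ℂ)) (s := ∅) Set.countable_empty hg1 (fun z hz => by
      have hz' : z ∈ Metric.ball (0 : ℂ) 1 := hz.1
      exact (hg2 z hz').differentiableAt (Metric.isOpen_ball.mem_nhds hz'))
  rw [circleIntegral] at h0
  unfold coef
  rw [fourierCoeff_eq_intervalIntegral _ _ 0]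
  have h1 : (∫ x in (0 : ℝ)..(0 + 1), (fourier (-(-1)) (x : UnitAddCircle) : ℂ) • onCircle f x)
      = ∫ x in (0 : ℝ)..1, (fun θ : ℝ => (2 * π * Complex.I)⁻¹ * ((2 * π : ℝ) * (deriv (circleMap 0 1) θ • g (circleMap 0 1 θ)))) ((2 * π) * x) := by
    rw [zero_add]
    refine intervalIntegral.integral_congr fun x _ => ?_
    have h2 : circleMap 0 1 (2 * π * x) = (AddCircle.toCircle (x : UnitAddCircle) : ℂ) := by
      rw [toCircle_coe_eq, circleMap]
      simp [mul_comm]
    simp only [neg_neg, fourier_one, deriv_circleMap, smul_eq_mul]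
    rw [h2]
    have h3 : onCircle f x = g (AddCircle.toCircle (x : UnitAddCircle) : ℂ) := (hg3 _ (norm_toCircle _)).symm
    rw [h3]
    have hpi : (π : ℂ) ≠ 0 := by exact_mod_cast Real.pi_ne_zero
    push_cast
    field_simp
  rw [h1, intervalIntegral.integral_comp_mul_left (fun θ : ℝ => (2 * π * Complex.I)⁻¹ * ((2 * π : ℝ) * (deriv (circleMap 0 1) θ • g (circleMap 0 1 θ)))) (by positivity)]
  rw [intervalIntegral.integral_const_mul, intervalIntegral.integral_const_mul, mul_zero, mul_one, h0]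
  simp

open Classical in
/-- the periodized Bernoulli function on the circle -/
noncomputable def exF (z : ℂ) : ℂ :=
  if h : z ∈ Submonoid.unitSphere ℂ then
    (periodizedBernoulli 2 ((AddCircle.homeomorphCircle (T := (1 : ℝ)) one_ne_zero).symm (⟨z, h⟩ : Circle)) : ℂ)
  else 0

lemma exF_toCircle (x : UnitAddCircle) : exF (AddCircle.toCircle x : ℂ) = (periodizedBernoulli 2 x : ℂ) := by
  unfold exF
  have h : (AddCircle.toCircle x : ℂ) ∈ Submonoid.unitSphere ℂ := (AddCircle.toCircle x).2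
  rw [dif_pos h]
  congr 2
  have h2 : (⟨(AddCircle.toCircle x : ℂ), h⟩ : Circle)
      = AddCircle.homeomorphCircle (T := (1 : ℝ)) one_ne_zero x := by
    rw [AddCircle.homeomorphCircle_apply]
    rfl
  exact (congrArg _ h2).trans (Homeomorph.symm_apply_apply _ x)

lemma coef_exF (n : ℤ) : coef exF n = ((1 / (2 * π ^ 2 * n ^ 2) : ℝ) : ℂ) := by
  unfold coef
  have h : onCircle exF = ((↑) ∘ periodizedBernoulli 2 : UnitAddCircle → ℂ) := by
    ext x
    exact exF_toCircle x
  rw [h, fourierCoeff_bernoulli_eq (by norm_num)]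
  have hpi : (π : ℂ) ≠ 0 := by exact_mod_cast Real.pi_ne_zero
  rcases eq_or_ne n 0 with rfl | hn
  · simp
  · have hn' : (n : ℂ) ≠ 0 := by exact_mod_cast hn
    push_cast
    rw [mul_pow, mul_pow, mul_pow, Complex.I_sq]
    norm_num
    field_simp
    norm_num

lemma exF_lipschitz : LipschitzOnCircle exF := by
  refine ⟨1 / 4, fun z w hz hw => ?_⟩
  obtain ⟨x, rfl⟩ := exists_toCircle z hz
  obtain ⟨y, rfl⟩ := exists_toCircle w hw
  obtain ⟨a, ha, rfl⟩ : ∃ a ∈ Set.Ico (0 : ℝ) 1, (a : UnitAddCircle) = x := by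
    refine ⟨AddCircle.equivIco 1 0 x, ?_, ?_⟩
    · have := (AddCircle.equivIco (1 : ℝ) 0 x).2
      simpa using this
    · exact (AddCircle.equivIco (1 : ℝ) 0).symm_apply_apply x
  obtain ⟨b, hb, rfl⟩ : ∃ b ∈ Set.Ico (0 : ℝ) 1, (b : UnitAddCircle) = y := by
    refine ⟨AddCircle.equivIco 1 0 y, ?_, ?_⟩
    · have := (AddCircle.equivIco (1 : ℝ) 0 y).2
      simpa using this
    · exact (AddCircle.equivIco (1 : ℝ) 0).symm_apply_apply y
  rw [exF_toCircle, exF_toCircle]
  have hB : ∀ t ∈ Set.Ico (0 : ℝ) 1, periodizedBernoulli 2 (t : UnitAddCircle) = t ^ 2 - t + 1 / 6 := by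
    intro t ht
    unfold periodizedBernoulli
    rw [AddCircle.liftIco_coe_apply (by simpa using ht)]
    simp [bernoulliFun, Polynomial.bernoulli, Finset.sum_range_succ, bernoulli_one, bernoulli_two]
    ring
  rw [hB a ha, hB b hb]
  have h1 : ‖(((a ^ 2 - a + 1 / 6 : ℝ) : ℂ) - ((b ^ 2 - b + 1 / 6 : ℝ) : ℂ))‖ = |a - b| * |a + b - 1| := by
    rw [← Complex.ofReal_sub, Complex.norm_real, Real.norm_eq_abs, ← abs_mul]
    congr 1
    ring
  rw [h1]
  have h2 : |a + b - 1| ≤ 1 - |a - b| := by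
    obtain ⟨ha0, ha1⟩ := ha
    obtain ⟨hb0, hb1⟩ := hb
    rcases abs_cases (a + b - 1) with ⟨h, _⟩ | ⟨h, _⟩ <;>
    rcases abs_cases (a - b) with ⟨h', _⟩ | ⟨h', _⟩ <;> rw [h, h'] <;> linarith
  have h3 : ‖(AddCircle.toCircle (a : UnitAddCircle) : ℂ) - AddCircle.toCircle (b : UnitAddCircle)‖ = 2 * |Real.sin (π * (a - b))| := by
    have e1 : (AddCircle.toCircle (a : UnitAddCircle) : ℂ) = AddCircle.toCircle (b : UnitAddCircle) * AddCircle.toCircle ((a - b : ℝ) : UnitAddCircle) := by
      rw [← Circle.coe_mul, ← AddCircle.toCircle_add, ← AddCircle.coe_add]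
      congr 3
      ring
    rw [e1]
    have e2 : (AddCircle.toCircle (b : UnitAddCircle) : ℂ) * AddCircle.toCircle ((a - b : ℝ) : UnitAddCircle) - AddCircle.toCircle (b : UnitAddCircle)
      = AddCircle.toCircle (b : UnitAddCircle) * ((AddCircle.toCircle ((a - b : ℝ) : UnitAddCircle) : ℂ) - 1) := by ring
    rw [e2, norm_mul, norm_toCircle, one_mul, toCircle_coe_eq, Complex.norm_exp_I_mul_ofReal_sub_one]
    rw [norm_mul, Real.norm_eq_abs, abs_two, Real.norm_eq_abs]
    congr 3
    ring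
  rw [h3]
  have hd0 : 0 ≤ |a - b| := abs_nonneg _
  have hd1 : |a - b| ≤ 1 := by
    rw [abs_le]
    constructor <;> linarith [ha.1, ha.2, hb.1, hb.2]
  have hpi := Real.pi_pos
  have h4 : 2 * (|a - b| * (1 - |a - b|)) ≤ |Real.sin (π * (a - b))| := by
    have e0 : |Real.sin (π * (a - b))| = Real.sin (π * |a - b|) := by
      rcases abs_cases (a - b) with ⟨h, _⟩ | ⟨h, _⟩
      · rw [h, abs_of_nonneg]
        exact Real.sin_nonneg_of_nonneg_of_le_pi (by positivity) (by rw [← h]; nlinarith)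
      · rw [h]
        have : Real.sin (π * -(a - b)) = - Real.sin (π * (a - b)) := by
          rw [← Real.sin_neg]; congr 1; ring
        rw [this, abs_of_nonpos]
        have h5 : 0 ≤ Real.sin (π * -(a - b)) :=
          Real.sin_nonneg_of_nonneg_of_le_pi (by rw [← h]; positivity) (by rw [← h]; nlinarith)
        linarith
    rw [e0]
    set d := |a - b| with hd
    rcases le_total d (1 / 2) with h | h
    · have := Real.mul_le_sin (x := π * d) (by positivity) (by nlinarith)
      have e3 : 2 / π * (π * d) = 2 * d := by field_simp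
      rw [e3] at this
      nlinarith
    · have := Real.mul_le_sin (x := π * (1 - d)) (by nlinarith) (by nlinarith)
      have e3 : 2 / π * (π * (1 - d)) = 2 * (1 - d) := by field_simp
      have e4 : Real.sin (π * (1 - d)) = Real.sin (π * d) := by
        rw [mul_sub, mul_one, Real.sin_pi_sub]
      rw [e3, e4] at this
      nlinarith
  nlinarith [mul_le_mul_of_nonneg_left h2 hd0]

end Pool.Agent.H93.Schatten
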