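import Pool.Agent.H93.Schatten.Approx
import Pool.Agent.H93.Schatten.Dilation
import Pool.Agent.H93.Schatten.Example

open scoped ENNReal InnerProductSpace Real
open Filter Topology MeasureTheory ContinuousLinearMap

namespace Pool.Agent.H93.Schatten

universe u

/-! ## The main theorem -/

section Main

variable {H : Type u} [NormedAddCommGroup H] [InnerProductSpace ℂ H] [CompleteSpace H]

lemma zpw_dilation {K : Type u} [NormedAddCommGroup K] [InnerProductSpace ℂ K] [CompleteSpace K]
    {T : H →L[ℂ] H} {V : H →ₗᵢ[ℂ] K} {U : K →L[ℂ] K} (h : IsUnitaryDilation T V U) (n : ℤ) :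
    zpw T n = (adjoint V.toContinuousLinearMap) ∘L (zpw U n) ∘L V.toContinuousLinearMap := by
  cases n with
  | ofNat n => exact h.2 n
  | negSucc n =>
    simp only [zpw]
    have h1 := congrArg adjoint (h.2 (n + 1))
    rw [adjoint_comp, adjoint_comp, adjoint_adjoint] at h1
    rw [← star_pow, ← star_pow]
    exact h1

lemma hasSum_isFunCalc {f : ℂ → ℂ} (hf : LipschitzOnCircle f) {T A : H →L[ℂ] H}
    (h : IsFunCalc f T A) : HasSum (fun n : ℤ => coef f n • zpw T n) A := by
  obtain ⟨K, _, _, _, V, U, hU, rfl⟩ := h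
  have h1 := hasSum_cfc hf.continuousOn (summable_coef hf) U hU.1
  have h2 : Continuous fun X : K →L[ℂ] K =>
      (adjoint V.toContinuousLinearMap) ∘L X ∘L V.toContinuousLinearMap := by fun_prop
  let L : (K →L[ℂ] K) →+ (H →L[ℂ] H) :=
    { toFun := fun X => (adjoint V.toContinuousLinearMap) ∘L X ∘L V.toContinuousLinearMap
      map_zero' := by simp
      map_add' := by
        intro X Y
        ext x
        simp }
  have h3 := h1.map L h2
  convert h3 using 1
  · ext1 n
    rw [zpw_dilation hU n]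
    ext x
    simp [L]
  · rfl

/-- For a contraction `T` and Lipschitz `f` the operator `f(T)` exists and is unique. -/
theorem existsUnique_isFunCalc {f : ℂ → ℂ} (hf : LipschitzOnCircle f) {T : H →L[ℂ] H}
    (hT : ‖T‖ ≤ 1) : ∃! A, IsFunCalc f T A := by
  obtain ⟨V, U, hU⟩ := exists_isUnitaryDilation T hT
  refine ⟨(adjoint V.toContinuousLinearMap) ∘L (cfc f U) ∘L V.toContinuousLinearMap,
    ⟨_, _, _, inferInstance, V, U, hU, rfl⟩, fun B hB => ?_⟩
  exact (hasSum_isFunCalc hf hB).unique (hasSum_isFunCalc hf ⟨_, _, _, inferInstance, V, U, hU, rfl⟩)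

lemma isFunCalc_funCalc {f : ℂ → ℂ} (hf : LipschitzOnCircle f) {T : H →L[ℂ] H}
    (hT : ‖T‖ ≤ 1) : IsFunCalc f T (funCalc f T) := by
  have h : ∃ A, IsFunCalc f T A := (existsUnique_isFunCalc hf hT).exists
  unfold funCalc
  rw [dif_pos h]
  exact h.choose_spec

lemma hasSum_funCalc {f : ℂ → ℂ} (hf : LipschitzOnCircle f) {T : H →L[ℂ] H}
    (hT : ‖T‖ ≤ 1) : HasSum (fun n : ℤ => coef f n • zpw T n) (funCalc f T) :=
  hasSum_isFunCalc hf (isFunCalc_funCalc hf hT)

end Main

end Pool.Agent.H93.Schatten
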