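import Mathlib

/-!
# Definitions for the hand-in MP_6ade77_an
-/

open scoped ENNReal InnerProductSpace Real
open Filter Topology MeasureTheory ContinuousLinearMap

namespace Pool.Agent.H93.Schatten

universe u

/-! ## Definitions used in the statement -/

section Definitions

variable {H : Type u} [NormedAddCommGroup H] [InnerProductSpace ℂ H]

/-- The `k`-th approximation number of a bounded operator on a Hilbert space: the distance from
`X` to the operators of rank at most `k`.  For a compact `X` it is the `k`-th singular value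
(numbered from `0`); if `X` is not compact these numbers do not tend to `0`. -/
noncomputable def approxNumber (X : H →L[ℂ] H) (k : ℕ) : ℝ≥0∞ :=
  ⨅ (F : H →L[ℂ] H) (_ : (F : H →ₗ[ℂ] H).rank ≤ k), ‖X - F‖ₑ

/-- The Schatten `p`-norm `(∑ₖ sₖ(X)ᵖ)^(1/p)` with value in `[0,∞]`; it is `∞` when `X` is not in
the Schatten class `S_p`. -/
noncomputable def schattenNorm (p : ℝ) (X : H →L[ℂ] H) : ℝ≥0∞ :=
  (∑' k : ℕ, approxNumber X k ^ p) ^ (1 / p)

/-- The restriction of `f` to the unit circle is Lipschitz. -/
def LipschitzOnCircle (f : ℂ → ℂ) : Prop :=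
  ∃ C : ℝ, ∀ z w : ℂ, ‖z‖ = 1 → ‖w‖ = 1 → ‖f z - f w‖ ≤ C * ‖z - w‖

/-- The restriction of `f` to the unit circle belongs to the disk algebra: it is the restriction
of a function continuous on the closed disk and holomorphic in the open disk. -/
def InDiskAlgebra (f : ℂ → ℂ) : Prop :=
  ∃ g : ℂ → ℂ, ContinuousOn g (Metric.closedBall 0 1) ∧ DifferentiableOn ℂ g (Metric.ball 0 1) ∧
    ∀ z : ℂ, ‖z‖ = 1 → g z = f z

/-- `a n ↑ l`: the sequence `a` is nondecreasing with limit `l`. -/
def IncreasesTo {α : Type} [Preorder α] [TopologicalSpace α] (a : ℕ → α) (l : α) : Prop :=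
  Monotone a ∧ Tendsto a atTop (𝓝 l)

variable [CompleteSpace H]

/-- `U` is a unitary operator on `K`, `V : H → K` is an isometric embedding, and `U` is a unitary
dilation of `T`: `Tⁿ = V* Uⁿ V` for all `n ≥ 0` (for negative powers, `(T*)ⁿ = V* (U*)ⁿ V` follows
by taking adjoints). -/
def IsUnitaryDilation {K : Type u} [NormedAddCommGroup K] [InnerProductSpace ℂ K] [CompleteSpace K]
    (T : H →L[ℂ] H) (V : H →ₗᵢ[ℂ] K) (U : K →L[ℂ] K) : Prop :=
  U ∈ unitary (K →L[ℂ] K) ∧
    ∀ n : ℕ, T ^ n = (adjoint V.toContinuousLinearMap) ∘L (U ^ n) ∘L V.toContinuousLinearMap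

/-- `A = f(T)`, that is `A = V* f(U) V` for a unitary dilation `(V, U)` of `T`, where `f(U)` is
the continuous functional calculus of the normal operator `U`. -/
def IsFunCalc (f : ℂ → ℂ) (T A : H →L[ℂ] H) : Prop :=
  ∃ (K : Type u) (_ : NormedAddCommGroup K) (_ : InnerProductSpace ℂ K) (_ : CompleteSpace K)
    (V : H →ₗᵢ[ℂ] K) (U : K →L[ℂ] K), IsUnitaryDilation T V U ∧
      A = (adjoint V.toContinuousLinearMap) ∘L (cfc f U) ∘L V.toContinuousLinearMap

open Classical in
/-- The operator `f(T)`.  For a contraction `T` and a Lipschitz function `f` it exists and does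
not depend on the dilation, see `existsUnique_isFunCalc` below. -/
noncomputable def funCalc (f : ℂ → ℂ) (T : H →L[ℂ] H) : H →L[ℂ] H :=
  if h : ∃ A, IsFunCalc f T A then h.choose else 0

end Definitions

end Pool.Agent.H93.Schatten
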