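import Pool.Agent.H93.Schatten.Defs

open scoped ENNReal InnerProductSpace Real
open Filter Topology MeasureTheory ContinuousLinearMap

namespace Pool.Agent.H93.Schatten

universe u

/-! ## Fourier coefficients of Lipschitz functions -/

/-- the function on `ℝ/ℤ` -/
noncomputable def onCircle (f : ℂ → ℂ) (x : UnitAddCircle) : ℂ := f (AddCircle.toCircle x : ℂ)

/-- Fourier coefficients -/
noncomputable def coef (f : ℂ → ℂ) (n : ℤ) : ℂ := fourierCoeff (onCircle f) n

lemma norm_toCircle (x : UnitAddCircle) : ‖(AddCircle.toCircle x : ℂ)‖ = 1 := Circle.norm_coe _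

lemma LipschitzOnCircle.continuousOn {f : ℂ → ℂ} (hf : LipschitzOnCircle f) :
    ContinuousOn f {z | ‖z‖ = 1} := by
  obtain ⟨C, hC⟩ := hf
  have hL : LipschitzOnWith (Real.toNNReal C) f {z | ‖z‖ = 1} := by
    refine LipschitzOnWith.of_dist_le_mul fun z hz w hw => ?_
    rw [dist_eq_norm, dist_eq_norm]
    refine (hC z w hz hw).trans ?_
    gcongr
    exact Real.le_coe_toNNReal C
  exact hL.continuousOn

lemma continuous_onCircle {f : ℂ → ℂ} (hf : ContinuousOn f {z | ‖z‖ = 1}) :
    Continuous (onCircle f) := by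
  refine hf.comp_continuous (by fun_prop) fun x => norm_toCircle x

lemma fourierCoeff_translate (G : C(UnitAddCircle, ℂ)) (h : UnitAddCircle) (n : ℤ) :
    fourierCoeff (fun x => G (x + h)) n = fourier n h * fourierCoeff G n := by
  unfold fourierCoeff
  have h1 : ∀ t : UnitAddCircle, fourier (-n) t • G (t + h)
      = (fun s => fourier n h * (fourier (-n) s • G s)) (t + h) := by
    intro t
    simp only [smul_eq_mul]
    have : (fourier (-n) (t + h) : ℂ) = fourier (-n) t * fourier (-n) h := by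
      simp only [fourier_apply, smul_add, AddCircle.toCircle_add, Circle.coe_mul]
    rw [this]
    have h2 : (fourier n h : ℂ) * fourier (-n) h = 1 := by
      rw [← fourier_add]
      simp
    calc (fourier (-n) t : ℂ) * G (t + h) = (fourier n h * fourier (-n) h) * (fourier (-n) t * G (t + h)) := by
          rw [h2, one_mul]
      _ = _ := by ring
  simp_rw [h1]
  rw [integral_add_right_eq_self (μ := AddCircle.haarAddCircle)
    (fun s => fourier n h * (fourier (-n) s • G s)) h]
  rw [integral_const_mul]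

lemma parseval (G : C(UnitAddCircle, ℂ)) :
    HasSum (fun n : ℤ => ‖fourierCoeff G n‖ ^ 2) (∫ t, ‖G t‖ ^ 2 ∂AddCircle.haarAddCircle) := by
  have h := hasSum_sq_fourierCoeff (T := (1 : ℝ)) (ContinuousMap.toLp (E := ℂ) 2 AddCircle.haarAddCircle ℂ G)
  simp_rw [fourierCoeff_toLp] at h
  convert h using 1
  refine integral_congr_ae ?_
  filter_upwards [ContinuousMap.coeFn_toLp (p := 2) (𝕜 := ℂ) AddCircle.haarAddCircle G] with x hx
  rw [hx]

lemma norm_fourier_sub_one_ge (n : ℤ) (h : ℝ) (hn : |n * h| ≤ 1 / 2) :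
    4 * |n * h| ≤ ‖(fourier n (h : UnitAddCircle) : ℂ) - 1‖ := by
  rw [fourier_coe_apply]
  have h1 : (2 * π * Complex.I * n * h / (1 : ℝ) : ℂ) = Complex.I * ((2 * π * (n * h) : ℝ) : ℂ) := by
    push_cast
    ring
  rw [h1, Complex.norm_exp_I_mul_ofReal_sub_one]
  have h2 : 2 * π * (n * h) / 2 = π * (n * h) := by ring
  rw [h2, norm_mul, Real.norm_eq_abs, Real.norm_eq_abs, abs_two]
  have hpi := Real.pi_pos
  have h3 : |π * (n * h)| ≤ π / 2 := by
    rw [abs_mul, abs_of_pos hpi]
    nlinarith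
  have h4 := Real.mul_abs_le_abs_sin h3
  rw [abs_mul, abs_of_pos hpi] at h4
  have h5 : 2 / π * (π * |n * h|) = 2 * |n * h| := by
    field_simp
  rw [h5] at h4
  linarith

lemma norm_toCircle_sub (x : UnitAddCircle) (h : ℝ) :
    ‖(AddCircle.toCircle (x + (h : UnitAddCircle)) : ℂ) - AddCircle.toCircle x‖ ≤ 2 * π * |h| := by
  rw [AddCircle.toCircle_add, Circle.coe_mul]
  have h1 : (AddCircle.toCircle x : ℂ) * (AddCircle.toCircle (h : UnitAddCircle) : ℂ) - AddCircle.toCircle x
      = AddCircle.toCircle x * ((AddCircle.toCircle (h : UnitAddCircle) : ℂ) - 1) := by ring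
  rw [h1, norm_mul, norm_toCircle, one_mul]
  have h2 : (AddCircle.toCircle (h : UnitAddCircle) : ℂ) = Complex.exp (Complex.I * ((2 * π * h : ℝ) : ℂ)) := by
    have := fourier_coe_apply (T := (1 : ℝ)) (n := 1) (x := h)
    rw [fourier_one] at this
    rw [this]
    congr 1
    push_cast
    ring
  rw [h2]
  refine (Real.norm_exp_I_mul_ofReal_sub_one_le).trans ?_
  rw [Real.norm_eq_abs, abs_mul, abs_of_pos (by positivity : 0 < 2 * π)]

/-- Bernstein: Lipschitz functions have absolutely summable Fourier coefficients. -/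
lemma summable_coef {f : ℂ → ℂ} (hf : LipschitzOnCircle f) : Summable fun n => ‖coef f n‖ := by
  have hcont := continuous_onCircle hf.continuousOn
  obtain ⟨C, hC⟩ := hf
  let G : C(UnitAddCircle, ℂ) := ⟨onCircle f, hcont⟩
  have hcoef : ∀ n, coef f n = fourierCoeff G n := fun n => rfl
  have key : ∀ s : Finset ℤ, ∑ n ∈ s, (n : ℝ) ^ 2 * ‖coef f n‖ ^ 2 ≤ π ^ 2 * C ^ 2 / 4 := by
    intro s
    obtain ⟨M, hM0, hM⟩ : ∃ M : ℝ, 0 < M ∧ ∀ n ∈ s, |(n : ℝ)| ≤ M := by
      refine ⟨1 + ∑ n ∈ s, |(n : ℝ)|, by positivity, fun n hn => ?_⟩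
      have := Finset.single_le_sum (f := fun n : ℤ => |(n : ℝ)|) (fun i _ => abs_nonneg _) hn
      linarith
    set h : ℝ := 1 / (2 * M) with hh
    have hpos : 0 < h := by positivity
    let Gh : C(UnitAddCircle, ℂ) := ⟨fun x => G (x + (h : UnitAddCircle)) - G x, by fun_prop⟩
    have hGh : ∀ n, fourierCoeff Gh n = (fourier n (h : UnitAddCircle) - 1) * coef f n := by
      intro n
      have h1 : fourierCoeff Gh n = fourierCoeff (fun x => G (x + (h : UnitAddCircle))) n - fourierCoeff G n := by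
        unfold fourierCoeff
        rw [← integral_sub]
        · refine integral_congr_ae (Filter.Eventually.of_forall fun t => ?_)
          simp only [Gh, ContinuousMap.coe_mk, smul_sub]
        · exact (Continuous.integrable_of_hasCompactSupport (by fun_prop)
            (HasCompactSupport.of_compactSpace _))
        · exact (Continuous.integrable_of_hasCompactSupport (by fun_prop)
            (HasCompactSupport.of_compactSpace _))
      rw [h1, fourierCoeff_translate, ← hcoef]
      ring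
    have hpars := parseval Gh
    have hbound : (∫ t, ‖Gh t‖ ^ 2 ∂(AddCircle.haarAddCircle (T := (1 : ℝ)))) ≤ (C * (2 * π * h)) ^ 2 := by
      have h1 : ∀ t, ‖Gh t‖ ^ 2 ≤ (C * (2 * π * h)) ^ 2 := by
        intro t
        have h2 : ‖Gh t‖ ≤ C * ‖(AddCircle.toCircle (t + (h : UnitAddCircle)) : ℂ) - AddCircle.toCircle t‖ :=
          hC _ _ (norm_toCircle _) (norm_toCircle _)
        have h3 := norm_toCircle_sub t h
        rw [abs_of_pos hpos] at h3
        have hC0 : 0 ≤ C := by
          by_contra hneg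
          push Not at hneg
          have h4 := hC 1 (-1) (by simp) (by simp)
          have h5 := norm_nonneg (f 1 - f (-1))
          have h6 : 0 < ‖(1 : ℂ) - (-1)‖ := by norm_num
          nlinarith
        have h4 : ‖Gh t‖ ≤ C * (2 * π * h) := h2.trans (by gcongr)
        exact pow_le_pow_left₀ (norm_nonneg _) h4 2
      calc (∫ t, ‖Gh t‖ ^ 2 ∂(AddCircle.haarAddCircle (T := (1 : ℝ))))
          ≤ ∫ t, (C * (2 * π * h)) ^ 2 ∂(AddCircle.haarAddCircle (T := (1 : ℝ))) := by
            refine integral_mono ?_ (integrable_const _) h1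
            exact (Continuous.integrable_of_hasCompactSupport (by fun_prop)
              (HasCompactSupport.of_compactSpace _))
        _ = (C * (2 * π * h)) ^ 2 := by simp
    have hsum : ∑ n ∈ s, ‖fourierCoeff Gh n‖ ^ 2 ≤ (C * (2 * π * h)) ^ 2 :=
      (sum_le_hasSum s (fun _ _ => by positivity) hpars).trans hbound
    have hlow : ∑ n ∈ s, 16 * h ^ 2 * ((n : ℝ) ^ 2 * ‖coef f n‖ ^ 2) ≤ ∑ n ∈ s, ‖fourierCoeff Gh n‖ ^ 2 := by
      refine Finset.sum_le_sum fun n hn => ?_
      rw [hGh n, norm_mul, mul_pow]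
      have h1 : |(n : ℝ) * h| ≤ 1 / 2 := by
        rw [abs_mul, abs_of_pos hpos, hh]
        have := hM n hn
        calc |(n : ℝ)| * (1 / (2 * M)) ≤ M * (1 / (2 * M)) := by gcongr
          _ = 1 / 2 := by field_simp
      have h2 := norm_fourier_sub_one_ge n h h1
      have h3 : (4 * |(n : ℝ) * h|) ^ 2 ≤ ‖(fourier n (h : UnitAddCircle) : ℂ) - 1‖ ^ 2 :=
        pow_le_pow_left₀ (by positivity) h2 2
      have h4 : (4 * |(n : ℝ) * h|) ^ 2 = 16 * h ^ 2 * (n : ℝ) ^ 2 := by
        rw [mul_pow, sq_abs]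
        ring
      rw [h4] at h3
      calc 16 * h ^ 2 * ((n : ℝ) ^ 2 * ‖coef f n‖ ^ 2) = (16 * h ^ 2 * (n : ℝ) ^ 2) * ‖coef f n‖ ^ 2 := by ring
        _ ≤ _ := by gcongr
    have hfin := hlow.trans hsum
    rw [← Finset.mul_sum] at hfin
    have h16 : 0 < 16 * h ^ 2 := by positivity
    have : 16 * h ^ 2 * (∑ n ∈ s, (n : ℝ) ^ 2 * ‖coef f n‖ ^ 2) ≤ 16 * h ^ 2 * (π ^ 2 * C ^ 2 / 4) := by
      refine hfin.trans (le_of_eq ?_)
      ring
    exact le_of_mul_le_mul_left this h16
  have hs2 : Summable fun n : ℤ => (n : ℝ) ^ 2 * ‖coef f n‖ ^ 2 :=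
    summable_of_sum_le (fun n => by positivity) key
  have hs1 : Summable fun n : ℤ => 1 / (n : ℝ) ^ 2 := by
    exact Real.summable_one_div_int_pow.2 (by norm_num)
  have hs3 : Summable fun n : ℤ => (if n = 0 then ‖coef f 0‖ else 0) + ((n : ℝ) ^ 2 * ‖coef f n‖ ^ 2 + 1 / (n : ℝ) ^ 2) := by
    refine Summable.add ?_ (hs2.add hs1)
    exact (hasSum_ite_eq 0 ‖coef f 0‖).summable
  refine Summable.of_nonneg_of_le (fun n => norm_nonneg _) (fun n => ?_) hs3
  by_cases hn : n = 0
  · subst hn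
    simp
  · rw [if_neg hn, zero_add]
    have hn' : (n : ℝ) ≠ 0 := by exact_mod_cast hn
    have hnn : 0 < |(n : ℝ)| := abs_pos.2 hn'
    have e1 : (n : ℝ) ^ 2 * ‖coef f n‖ ^ 2 = (|(n : ℝ)| * ‖coef f n‖) ^ 2 := by
      rw [mul_pow, sq_abs]
    have e2 : 1 / (n : ℝ) ^ 2 = (1 / |(n : ℝ)|) ^ 2 := by
      rw [div_pow, sq_abs, one_pow]
    rw [e1, e2]
    have e3 : ‖coef f n‖ = (|(n : ℝ)| * ‖coef f n‖) * (1 / |(n : ℝ)|) := by
      field_simp
    have e4 : 0 ≤ |(n : ℝ)| * ‖coef f n‖ := by positivity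
    have e5 : 0 ≤ 1 / |(n : ℝ)| := by positivity
    nlinarith [sq_nonneg (|(n : ℝ)| * ‖coef f n‖ - 1 / |(n : ℝ)|), mul_nonneg e4 e5]

lemma exists_toCircle (z : ℂ) (hz : ‖z‖ = 1) : ∃ x : UnitAddCircle, (AddCircle.toCircle x : ℂ) = z := by
  have hz' : z ∈ Submonoid.unitSphere ℂ := by
    rw [Submonoid.unitSphere]
    simp [hz]
  obtain ⟨x, hx⟩ := (AddCircle.homeomorphCircle (T := (1 : ℝ)) one_ne_zero).surjective (⟨z, hz'⟩ : Circle)
  refine ⟨x, ?_⟩
  rw [AddCircle.homeomorphCircle_apply] at hx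
  rw [hx]

/-- the Fourier series converges pointwise on the circle -/
lemma hasSum_coef {f : ℂ → ℂ} (hf : ContinuousOn f {z | ‖z‖ = 1})
    (hs : Summable fun n => ‖coef f n‖) (z : ℂ) (hz : ‖z‖ = 1) :
    HasSum (fun n : ℤ => coef f n * z ^ n) (f z) := by
  let G : C(UnitAddCircle, ℂ) := ⟨onCircle f, continuous_onCircle hf⟩
  obtain ⟨x, hx⟩ := exists_toCircle z hz
  have h := has_pointwise_sum_fourier_series_of_summable (f := G) (T := (1 : ℝ)) hs.of_norm x
  subst hx
  have h2 : G x = f (AddCircle.toCircle x : ℂ) := rfl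
  rw [h2] at h
  convert h using 1
  ext n
  simp only [smul_eq_mul, fourier_apply, AddCircle.toCircle_zsmul, Circle.coe_zpow]
  rfl

/-- `a ^ n` for `n ≥ 0` and `(a*) ^ |n|` for `n < 0`. -/
def zpw {R : Type*} [Monoid R] [Star R] (a : R) : ℤ → R
  | Int.ofNat n => a ^ n
  | Int.negSucc n => (star a) ^ (n + 1)

lemma map_zpw {R S : Type*} [Monoid R] [Star R] [Monoid S] [Star S] {F : Type*} [FunLike F R S]
    [MonoidHomClass F R S] [StarHomClass F R S] (φ : F) (a : R) (n : ℤ) :
    φ (zpw a n) = zpw (φ a) n := by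
  cases n with
  | ofNat n => simp [zpw]
  | negSucc n => simp [zpw, map_star]

lemma zpw_eq_zpow {z : ℂ} (hz : ‖z‖ = 1) (n : ℤ) : zpw z n = z ^ n := by
  cases n with
  | ofNat n => simp [zpw]
  | negSucc n =>
    simp only [zpw, zpow_negSucc]
    rw [← inv_pow]
    congr 1
    rw [Complex.inv_def, Complex.normSq_eq_norm_sq, hz]
    simp

section
variable {K : Type*} [NormedAddCommGroup K] [InnerProductSpace ℂ K] [CompleteSpace K]

lemma hasSum_cfc {f : ℂ → ℂ} (hf : ContinuousOn f {z | ‖z‖ = 1})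
    (hs : Summable fun n => ‖coef f n‖) (U : K →L[ℂ] K) (hU : U ∈ unitary (K →L[ℂ] K)) :
    HasSum (fun n : ℤ => coef f n • zpw U n) (cfc f U) := by
  have hnorm : ∀ z ∈ spectrum ℂ U, ‖z‖ = 1 := by
    intro z hz
    rcases subsingleton_or_nontrivial K with hK | hK
    · have : Subsingleton (K →L[ℂ] K) := by
        refine ⟨fun a b => ?_⟩
        ext x
        exact Subsingleton.elim _ _
      rw [spectrum.of_subsingleton] at hz
      exact absurd hz (Set.notMem_empty z)
    · simpa using spectrum.subset_circle_of_unitary hU hz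
  have hnormal : IsStarNormal U := by
    refine ⟨?_⟩
    rw [Unitary.mem_iff] at hU
    rw [commute_iff_eq, hU.1, hU.2]
  have hcont : ContinuousOn f (spectrum ℂ U) := hf.mono hnorm
  rw [cfc_apply f U hnormal hcont]
  let w : C(spectrum ℂ U, ℂ) := (ContinuousMap.id ℂ).restrict (spectrum ℂ U)
  have hwz : ∀ (n : ℤ) (z : spectrum ℂ U), (zpw w n) z = (z : ℂ) ^ n := by
    intro n z
    rw [← zpw_eq_zpow (hnorm z z.2)]
    cases n with
    | ofNat n => simp [zpw, w]
    | negSucc n => simp [zpw, w]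
  let Fr : C(spectrum ℂ U, ℂ) := ⟨_, hcont.domRestrict⟩
  have hsummable : Summable fun n : ℤ => coef f n • zpw w n := by
    refine Summable.of_norm_bounded hs fun n => ?_
    rw [norm_smul]
    refine mul_le_of_le_one_right (norm_nonneg _) ?_
    rw [ContinuousMap.norm_le _ zero_le_one]
    intro z
    rw [hwz n z, norm_zpow, hnorm z z.2, one_zpow]
  have hsum : HasSum (fun n : ℤ => coef f n • zpw w n) Fr := by
    have h1 := hsummable.hasSum
    have h2 : (∑' n : ℤ, coef f n • zpw w n) = Fr := by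
      ext z
      rw [← ContinuousMap.tsum_apply hsummable z]
      have h3 := hasSum_coef hf hs (z : ℂ) (hnorm z z.2)
      have h4 : ∀ n, (coef f n • zpw w n) z = coef f n * (z : ℂ) ^ n := by
        intro n
        rw [ContinuousMap.smul_apply, hwz n z, smul_eq_mul]
      simp_rw [h4]
      exact h3.tsum_eq
    rwa [h2] at h1
  have hmap := hsum.map (cfcHom (R := ℂ) hnormal) (cfcHom_continuous hnormal)
  convert hmap using 1
  ext1 n
  simp only [Function.comp_apply, map_smul]
  rw [map_zpw]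
  congr 2
  exact (cfcHom_id hnormal).symm

end

end Pool.Agent.H93.Schatten
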