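import Pool.Agent.H93.Schatten.Calc

open scoped ENNReal InnerProductSpace Real
open Filter Topology MeasureTheory ContinuousLinearMap

namespace Pool.Agent.H93.Schatten

universe u

variable {H : Type u} [NormedAddCommGroup H] [InnerProductSpace ℂ H] [CompleteSpace H]

lemma schattenNorm_eq (p : ℝ) (X : H →L[ℂ] H) : schattenNorm p X = schattenSum p X ^ (1 / p) := rfl

lemma schattenSum_adjoint (p : ℝ) (X : H →L[ℂ] H) : schattenSum p (adjoint X) = schattenSum p X := by
  unfold schattenSum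
  simp [approxNumber_adjoint]

lemma exists_fourth_root {r : ℝ} (h0 : 0 ≤ r) (h1 : r < 1) : ∃ t : ℝ, 0 < t ∧ t < 1 ∧ r ≤ t ^ 4 := by
  refine ⟨((r + 1) / 2) ^ (1 / 4 : ℝ), by positivity, ?_, ?_⟩
  · exact Real.rpow_lt_one (by linarith) (by linarith) (by norm_num)
  · rw [← Real.rpow_natCast, ← Real.rpow_mul (by linarith)]
    norm_num
    linarith

lemma summable_enorm_of {b : ℕ → ℂ} (hb : Summable fun n => ‖b n‖) : (∑' n, ‖b n‖ₑ) ≠ ⊤ := by
  rw [← tsum_congr (fun n => ofReal_norm (b n))]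
  rw [← ENNReal.ofReal_tsum_of_nonneg (fun n => norm_nonneg _) hb]
  exact ENNReal.ofReal_ne_top

/-- the estimate for strict contractions, with a constant depending on `f`, `p` and `‖S‖`. -/
lemma exists_bound {f : ℂ → ℂ} (hf : LipschitzOnCircle f) {p : ℝ} (hp : 1 ≤ p) (S : H →L[ℂ] H)
    (hS : ‖S‖ < 1) : ∃ C : ℝ≥0∞, C ≠ ⊤ ∧ ∀ T : H →L[ℂ] H, ‖T‖ ≤ 1 →
      schattenSum p (funCalc f T - funCalc f S) ≤ C * schattenSum p (T - S) := by
  obtain ⟨t, ht0, ht1, hSt⟩ := exists_fourth_root (norm_nonneg S) hS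
  have hsum := summable_coef hf
  let b : ℕ → ℂ := fun n => coef f n
  let b' : ℕ → ℂ := fun n => if n = 0 then 0 else coef f (-(n : ℤ))
  have hb : Summable fun n => ‖b n‖ := hsum.comp_injective Nat.cast_injective
  have hb' : Summable fun n => ‖b' n‖ := by
    have h1 : Summable fun n : ℕ => ‖coef f (-(n : ℤ))‖ :=
      hsum.comp_injective (fun a b h => by simpa using h)
    refine Summable.of_nonneg_of_le (fun n => norm_nonneg _) (fun n => ?_) h1
    by_cases hn : n = 0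
    · simp [b', hn]
    · simp [b', hn]
  refine ⟨2 * 2 ^ (p - 1) * (cst p t (∑' n, ‖b n‖ₑ) + cst p t (∑' n, ‖b' n‖ₑ)), ?_, ?_⟩
  · have h2 : (2 : ℝ≥0∞) * 2 ^ (p - 1) ≠ ⊤ :=
      ENNReal.mul_ne_top (by norm_num) (ENNReal.rpow_ne_top_of_nonneg (by linarith) (by norm_num))
    exact ENNReal.mul_ne_top h2 (ENNReal.add_ne_top.2
      ⟨cst_ne_top (by linarith) ht0 ht1 (summable_enorm_of hb),
       cst_ne_top (by linarith) ht0 ht1 (summable_enorm_of hb')⟩)
  · intro T hT
    have hD := (hasSum_funCalc hf hT).sub (hasSum_funCalc hf hS.le)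
    have hnormpow : ∀ (X : H →L[ℂ] H), ‖X‖ ≤ 1 → ∀ n : ℕ, ‖X ^ n‖ ≤ 1 := by
      intro X hX n
      rcases Nat.eq_zero_or_pos n with rfl | hn
      · rw [pow_zero]
        exact ContinuousLinearMap.norm_id_le
      · exact (norm_pow_le' X hn).trans (pow_le_one₀ (norm_nonneg _) hX)
    have hTs : ‖adjoint T‖ ≤ 1 := by
      rw [show ‖adjoint T‖ = ‖T‖ from LinearIsometryEquiv.norm_map _ _]; exact hT
    have hSs : ‖adjoint S‖ ≤ 1 := by
      rw [show ‖adjoint S‖ = ‖S‖ from LinearIsometryEquiv.norm_map _ _]; exact hS.le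
    have hsm1 : Summable fun n : ℕ => b n • (T ^ n - S ^ n) := by
      refine Summable.of_norm_bounded (hb.mul_right 2) fun n => ?_
      rw [norm_smul]
      gcongr
      calc ‖T ^ n - S ^ n‖ ≤ ‖T ^ n‖ + ‖S ^ n‖ := norm_sub_le _ _
        _ ≤ 1 + 1 := add_le_add (hnormpow T hT n) (hnormpow S hS.le n)
        _ = 2 := by norm_num
    have hsm2 : Summable fun n : ℕ => b' n • ((adjoint T) ^ n - (adjoint S) ^ n) := by
      refine Summable.of_norm_bounded (hb'.mul_right 2) fun n => ?_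
      rw [norm_smul]
      gcongr
      calc ‖(adjoint T) ^ n - (adjoint S) ^ n‖ ≤ ‖(adjoint T) ^ n‖ + ‖(adjoint S) ^ n‖ := norm_sub_le _ _
        _ ≤ 1 + 1 := add_le_add (hnormpow _ hTs n) (hnormpow _ hSs n)
        _ = 2 := by norm_num
    set D1 := ∑' n : ℕ, b n • (T ^ n - S ^ n) with hD1
    set D2 := ∑' n : ℕ, b' n • ((adjoint T) ^ n - (adjoint S) ^ n) with hD2
    have hs1 : HasSum (fun n : ℕ => b n • (T ^ n - S ^ n)) D1 := hsm1.hasSum
    have hs2 : HasSum (fun n : ℕ => b' n • ((adjoint T) ^ n - (adjoint S) ^ n)) D2 := hsm2.hasSum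
    have heq : funCalc f T - funCalc f S = D1 + D2 := by
      have h2' := (hasSum_nat_add_iff' 1).2 hs2
      set Fz : ℤ → (H →L[ℂ] H) := fun n => coef f n • zpw T n - coef f n • zpw S n with hFz
      have g1 : HasSum (fun n : ℕ => Fz n) D1 := by
        have e : (fun n : ℕ => Fz n) = fun n : ℕ => b n • (T ^ n - S ^ n) := by
          funext n
          simp only [hFz, b, zpw, ← smul_sub]
        rw [e]
        exact hs1
      have g2 : HasSum (fun n : ℕ => Fz (-((n : ℤ) + 1))) D2 := by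
        have e : (fun n : ℕ => Fz (-((n : ℤ) + 1)))
            = fun n : ℕ => b' (n + 1) • ((adjoint T) ^ (n + 1) - (adjoint S) ^ (n + 1)) := by
          funext n
          have e1 : -((n : ℤ) + 1) = Int.negSucc n := rfl
          have e2 : b' (n + 1) = coef f (Int.negSucc n) := by
            simp only [b', Nat.succ_ne_zero, if_false]
            congr 1
          simp only [hFz]
          rw [e1, ← smul_sub, e2]
          rfl
        rw [e]
        have e0 : D2 - ∑ i ∈ Finset.range 1, b' i • ((adjoint T) ^ i - (adjoint S) ^ i) = D2 := by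
          simp
        rw [e0] at h2'
        exact h2'
      exact hD.unique (g1.of_nat_of_neg_add_one g2)
    rw [heq]
    have e1 := schattenSum_series_le hp T S b hT ht0 ht1 hSt hb D1 hs1
    have e2 := schattenSum_series_le hp (adjoint T) (adjoint S) b' hTs ht0 ht1
      (by rw [show ‖adjoint S‖ = ‖S‖ from LinearIsometryEquiv.norm_map _ _]; exact hSt) hb' D2 hs2
    have e3 : schattenSum p (adjoint T - adjoint S) = schattenSum p (T - S) := by
      rw [← map_sub, schattenSum_adjoint]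
    rw [e3] at e2
    calc schattenSum p (D1 + D2) ≤ 2 * 2 ^ (p - 1) * (schattenSum p D1 + schattenSum p D2) :=
          schattenSum_add_le p hp D1 D2
      _ ≤ 2 * 2 ^ (p - 1) * (cst p t (∑' n, ‖b n‖ₑ) * schattenSum p (T - S)
            + cst p t (∑' n, ‖b' n‖ₑ) * schattenSum p (T - S)) := by gcongr
      _ = _ := by ring

/-- Part (B). -/
lemma partB {p : ℝ} (hp : 1 ≤ p) {f : ℂ → ℂ} (hf : LipschitzOnCircle f) (T₁ : H →L[ℂ] H)
    (T₀ : ℕ → H →L[ℂ] H) (hT₁ : ‖T₁‖ ≤ 1) (hT₀ : ∀ n, ‖T₀ n‖ ≤ 1)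
    (hb : (⨆ n, schattenNorm p (T₁ - T₀ n)) < ⊤) (hm : ∃ m, ‖T₀ m‖ < 1) :
    (⨆ n, schattenNorm p (funCalc f T₁ - funCalc f (T₀ n))) < ⊤ := by
  have hp0 : 0 < p := by linarith
  obtain ⟨m, hm⟩ := hm
  obtain ⟨C, hC, hCb⟩ := exists_bound hf hp (T₀ m) hm
  set M := (⨆ n, schattenNorm p (T₁ - T₀ n)) with hM
  have h1 : ∀ n, schattenSum p (T₁ - T₀ n) ≤ M ^ p := by
    intro n
    have : schattenNorm p (T₁ - T₀ n) ≤ M := le_iSup (fun n => schattenNorm p (T₁ - T₀ n)) n
    rw [schattenNorm_eq, one_div, ENNReal.rpow_inv_le_iff hp0] at this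
    exact this
  have hMp : M ^ p ≠ ⊤ := ENNReal.rpow_ne_top_of_nonneg hp0.le hb.ne
  have h2 : ∀ n, schattenSum p (T₀ n - T₀ m) ≤ 2 * 2 ^ (p - 1) * (M ^ p + M ^ p) := by
    intro n
    have e : T₀ n - T₀ m = -(T₁ - T₀ n) + (T₁ - T₀ m) := by abel
    rw [e]
    refine (schattenSum_add_le p hp _ _).trans ?_
    rw [schattenSum_neg]
    gcongr
    · exact h1 n
    · exact h1 m
  set B := 2 * 2 ^ (p - 1) * (C * M ^ p + C * (2 * 2 ^ (p - 1) * (M ^ p + M ^ p))) with hB
  have h22 : (2 : ℝ≥0∞) * 2 ^ (p - 1) ≠ ⊤ :=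
    ENNReal.mul_ne_top (by norm_num) (ENNReal.rpow_ne_top_of_nonneg (by linarith) (by norm_num))
  have hBfin : B ≠ ⊤ := by
    refine ENNReal.mul_ne_top h22 (ENNReal.add_ne_top.2 ⟨ENNReal.mul_ne_top hC hMp, ?_⟩)
    exact ENNReal.mul_ne_top hC (ENNReal.mul_ne_top h22 (ENNReal.add_ne_top.2 ⟨hMp, hMp⟩))
  have h3 : ∀ n, schattenSum p (funCalc f T₁ - funCalc f (T₀ n)) ≤ B := by
    intro n
    have e : funCalc f T₁ - funCalc f (T₀ n)
        = (funCalc f T₁ - funCalc f (T₀ m)) + -(funCalc f (T₀ n) - funCalc f (T₀ m)) := by abel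
    rw [e]
    refine (schattenSum_add_le p hp _ _).trans ?_
    rw [schattenSum_neg, hB]
    gcongr
    · exact (hCb T₁ hT₁).trans (by gcongr; exact h1 m)
    · exact (hCb (T₀ n) (hT₀ n)).trans (by gcongr; exact h2 n)
  refine lt_of_le_of_lt (iSup_le fun n => ?_) (ENNReal.rpow_lt_top_of_nonneg (y := 1 / p) (by positivity) hBfin)
  rw [schattenNorm_eq]
  exact ENNReal.rpow_le_rpow (h3 n) (by positivity)


/-! ### Part (A) -/

lemma not_inDiskAlgebra_exF : ¬ InDiskAlgebra exF := by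
  intro h
  have h1 := coef_neg_one_of_inDiskAlgebra h
  rw [coef_exF] at h1
  have h2 : (1 / (2 * π ^ 2 * ((-1 : ℤ) : ℝ) ^ 2) : ℝ) = 0 := by exact_mod_cast h1
  have : (0 : ℝ) < 1 / (2 * π ^ 2 * ((-1 : ℤ) : ℝ) ^ 2) := by
    have := Real.pi_pos
    norm_num
    positivity
  linarith

omit [CompleteSpace H] in
lemma exists_submodule_finrank (hH : ¬ FiniteDimensional ℂ H) (n : ℕ) :
    ∃ E : Submodule ℂ H, FiniteDimensional ℂ E ∧ Module.finrank ℂ E = n := by
  have h1 : (n : Cardinal) ≤ Module.rank ℂ H := by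
    by_contra h
    push Not at h
    apply hH
    exact Module.rank_lt_aleph0_iff.1 (h.trans (Cardinal.natCast_lt_aleph0))
  obtain ⟨s, hs1, hs2⟩ := exists_finset_linearIndependent_of_le_rank h1
  refine ⟨Submodule.span ℂ (s : Set H), inferInstance, ?_⟩
  rw [finrank_span_finset_eq_card hs2, hs1]

lemma pow_one_sub_smul_proj (E : Submodule ℂ H) [FiniteDimensional ℂ E] (r : ℝ) (k : ℕ) :
    ((1 : H →L[ℂ] H) - ((1 - r : ℝ) : ℂ) • E.starProjection) ^ k
      = 1 - ((1 - r ^ k : ℝ) : ℂ) • E.starProjection := by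
  have hP : E.starProjection * E.starProjection = E.starProjection :=
    E.isIdempotentElem_starProjection
  induction k with
  | zero => simp
  | succ k ih =>
    rw [pow_succ, ih]
    rw [sub_mul, one_mul, mul_sub, mul_one, smul_mul_smul_comm, hP, ← sub_add, sub_sub, ← add_smul,
      ]
    rw [sub_add, ← sub_smul]
    congr 2
    push_cast
    ring

lemma star_one_sub_smul_proj (E : Submodule ℂ H) [FiniteDimensional ℂ E] (r : ℝ) :
    star ((1 : H →L[ℂ] H) - ((r : ℝ) : ℂ) • E.starProjection) = 1 - ((r : ℝ) : ℂ) • E.starProjection := by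
  rw [star_sub, star_one, star_smul]
  congr 2
  · simp
  · exact (isSelfAdjoint_starProjection E).star_eq

lemma zpw_one_sub_smul_proj (E : Submodule ℂ H) [FiniteDimensional ℂ E] (r : ℝ) (m : ℤ) :
    zpw ((1 : H →L[ℂ] H) - ((1 - r : ℝ) : ℂ) • E.starProjection) m
      = 1 - ((1 - r ^ m.natAbs : ℝ) : ℂ) • E.starProjection := by
  cases m with
  | ofNat k => exact pow_one_sub_smul_proj E r k
  | negSucc k =>
    simp only [zpw, Int.natAbs_negSucc]
    rw [star_one_sub_smul_proj, pow_one_sub_smul_proj]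

lemma zpw_one (m : ℤ) : zpw (1 : H →L[ℂ] H) m = 1 := by
  cases m <;> simp [zpw]

/-- the coefficients -/
noncomputable def cc (m : ℤ) : ℝ := 1 / (2 * π ^ 2 * m ^ 2)

lemma cc_nonneg (m : ℤ) : 0 ≤ cc m := by unfold cc; positivity

lemma summable_cc : Summable cc := by
  have h := summable_coef exF_lipschitz
  refine h.congr fun m => ?_
  rw [coef_exF, Complex.norm_real, Real.norm_eq_abs]
  exact abs_of_nonneg (cc_nonneg m)

/-- geometric sums -/
def gs (k : ℕ) (r : ℝ) : ℝ := ∑ j ∈ Finset.range k, r ^ j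

lemma gs_nonneg {k : ℕ} {r : ℝ} (hr : 0 ≤ r) : 0 ≤ gs k r := Finset.sum_nonneg fun _ _ => by positivity

lemma gs_mono {k : ℕ} {r s : ℝ} (hr : 0 ≤ r) (hrs : r ≤ s) : gs k r ≤ gs k s :=
  Finset.sum_le_sum fun _ _ => by gcongr

lemma one_sub_mul_gs (k : ℕ) (r : ℝ) : (1 - r) * gs k r = 1 - r ^ k := by
  unfold gs
  rw [mul_comm]
  have := geom_sum_mul r k
  linarith

lemma gs_le {k : ℕ} {r : ℝ} (hr : 0 ≤ r) (hr1 : r < 1) : gs k r ≤ 1 / (1 - r) := by
  have h1 : 0 < 1 - r := by linarith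
  rw [le_div_iff₀ h1, mul_comm, one_sub_mul_gs]
  have := pow_nonneg hr k
  linarith

lemma summable_cc_gs {r : ℝ} (hr : 0 ≤ r) (hr1 : r < 1) : Summable fun m : ℤ => cc m * gs m.natAbs r := by
  refine Summable.of_nonneg_of_le (fun m => mul_nonneg (cc_nonneg m) (gs_nonneg hr)) (fun m => ?_)
    (summable_cc.mul_right (1 / (1 - r)))
  have := cc_nonneg m
  gcongr
  exact gs_le hr hr1

/-- the normalized difference -/
noncomputable def psi (r : ℝ) : ℝ := ∑' m : ℤ, cc m * gs m.natAbs r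

lemma psi_nonneg {r : ℝ} (hr : 0 ≤ r) : 0 ≤ psi r :=
  tsum_nonneg fun m => mul_nonneg (cc_nonneg m) (gs_nonneg hr)

lemma psi_mono {r s : ℝ} (hr : 0 ≤ r) (hrs : r ≤ s) (hs : s < 1) : psi r ≤ psi s := by
  refine Summable.tsum_le_tsum (fun m => ?_) (summable_cc_gs hr (lt_of_le_of_lt hrs hs))
    (summable_cc_gs (hr.trans hrs) hs)
  have := cc_nonneg m
  gcongr
  exact gs_mono hr hrs

lemma psi_tendsto {r : ℕ → ℝ} (hr0 : ∀ n, 0 ≤ r n) (hr1 : ∀ n, r n < 1) (hlim : Tendsto r atTop (𝓝 1))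
    (M : ℝ) : ∀ᶠ n in atTop, M < psi (r n) := by
  -- partial sums of the harmonic series
  have hharm := Real.tendsto_sum_range_one_div_nat_succ_atTop
  have h1 : ∀ᶠ N : ℕ in atTop, 2 * π ^ 2 * M + 1 ≤ ∑ i ∈ Finset.range N, 1 / ((i : ℝ) + 1) :=
    hharm.eventually_ge_atTop _
  obtain ⟨N, hN⟩ := h1.exists
  have hpi : 0 < 2 * π ^ 2 := by positivity
  have h2 : M < ∑ i ∈ Finset.range N, cc ((i : ℤ) + 1) * gs (i + 1) 1 := by
    have e : ∀ i : ℕ, cc ((i : ℤ) + 1) * gs (i + 1) 1 = (1 / (2 * π ^ 2)) * (1 / ((i : ℝ) + 1)) := by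
      intro i
      unfold cc gs
      simp only [one_pow, Finset.sum_const, Finset.card_range, nsmul_eq_mul, mul_one]
      push_cast
      have : (i : ℝ) + 1 ≠ 0 := by positivity
      field_simp
    simp_rw [e]
    rw [← Finset.mul_sum, ← div_lt_iff₀' (by positivity)]
    have : M / (1 / (2 * π ^ 2)) = 2 * π ^ 2 * M := by field_simp
    rw [this]
    linarith
  have h3 : Tendsto (fun n => ∑ i ∈ Finset.range N, cc ((i : ℤ) + 1) * gs (i + 1) (r n)) atTop
      (𝓝 (∑ i ∈ Finset.range N, cc ((i : ℤ) + 1) * gs (i + 1) 1)) := by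
    refine tendsto_finsetSum _ fun i _ => ?_
    refine Tendsto.const_mul _ ?_
    unfold gs
    refine tendsto_finsetSum _ fun j _ => ?_
    exact hlim.pow j
  filter_upwards [h3.eventually (lt_mem_nhds h2)] with n hn
  refine lt_of_lt_of_le hn ?_
  have hinj : Function.Injective (fun i : ℕ => (i : ℤ) + 1) := fun a b h => by
    simpa using h
  have e2 : ∑ i ∈ Finset.range N, cc ((i : ℤ) + 1) * gs (i + 1) (r n)
      = ∑ m ∈ (Finset.range N).map ⟨fun i : ℕ => (i : ℤ) + 1, hinj⟩, cc m * gs m.natAbs (r n) := by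
    rw [Finset.sum_map]
    refine Finset.sum_congr rfl fun i _ => ?_
    simp only [Function.Embedding.coeFn_mk]
    congr 2
  rw [e2]
  exact (summable_cc_gs (hr0 n) (hr1 n)).sum_le_tsum _
    (fun m _ => mul_nonneg (cc_nonneg m) (gs_nonneg (hr0 n)))

lemma funCalc_sub (E : Submodule ℂ H) [FiniteDimensional ℂ E] {r : ℝ} (hr : 0 ≤ r) (hr1 : r < 1)
    (hT : ‖(1 : H →L[ℂ] H) - ((1 - r : ℝ) : ℂ) • E.starProjection‖ ≤ 1) :
    funCalc exF (1 : H →L[ℂ] H) - funCalc exF (1 - ((1 - r : ℝ) : ℂ) • E.starProjection)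
      = (((1 - r) * psi r : ℝ) : ℂ) • E.starProjection := by
  have h1 := (hasSum_funCalc exF_lipschitz (T := (1 : H →L[ℂ] H)) ContinuousLinearMap.norm_id_le).sub
    (hasSum_funCalc exF_lipschitz hT)
  have h2 : HasSum (fun m : ℤ => (((1 - r) * (cc m * gs m.natAbs r) : ℝ) : ℂ) • E.starProjection)
      ((((1 - r) * psi r : ℝ) : ℂ) • E.starProjection) := by
    refine HasSum.smul_const ?_ _
    rw [Complex.hasSum_ofReal]
    exact ((summable_cc_gs hr hr1).hasSum).mul_left _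
  refine h1.unique ?_
  have e : (fun m : ℤ => coef exF m • zpw (1 : H →L[ℂ] H) m
      - coef exF m • zpw (1 - ((1 - r : ℝ) : ℂ) • E.starProjection) m)
      = fun m : ℤ => (((1 - r) * (cc m * gs m.natAbs r) : ℝ) : ℂ) • E.starProjection := by
    funext m
    rw [zpw_one, zpw_one_sub_smul_proj, coef_exF, ← smul_sub, sub_sub_cancel, smul_smul]
    congr 1
    rw [← Complex.ofReal_mul]
    congr 1
    rw [← one_sub_mul_gs]
    unfold cc
    ring
  rw [e]
  exact h2

/-- the exact value of the Schatten norms in the example -/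
lemma schattenNorm_example {p : ℝ} (hp : 1 ≤ p) (n : ℕ) (E : Submodule ℂ H) [FiniteDimensional ℂ E]
    (hE : Module.finrank ℂ E = n + 1) (x : ℝ) (hx : 0 ≤ x) :
    schattenNorm p (((((n : ℝ) + 1) ^ (-(1 / p)) * x : ℝ) : ℂ) • E.starProjection) = ENNReal.ofReal x := by
  have hp0 : 0 < p := by linarith
  rw [schattenNorm_eq, schattenSum_smul_proj p hp0, hE]
  have h1 : ‖((((n : ℝ) + 1) ^ (-(1 / p)) * x : ℝ) : ℂ)‖ₑ
      = ENNReal.ofReal (((n : ℝ) + 1) ^ (-(1 / p))) * ENNReal.ofReal x := by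
    rw [← ofReal_norm, Complex.norm_real, Real.norm_eq_abs, abs_of_nonneg (by positivity),
      ENNReal.ofReal_mul (by positivity)]
  rw [h1, ENNReal.mul_rpow_of_nonneg _ _ hp0.le]
  have h2 : ENNReal.ofReal (((n : ℝ) + 1) ^ (-(1 / p))) ^ p = ((n + 1 : ℕ) : ℝ≥0∞)⁻¹ := by
    rw [ENNReal.ofReal_rpow_of_nonneg (by positivity) hp0.le, ← Real.rpow_mul (by positivity)]
    have : -(1 / p) * p = -1 := by field_simp
    rw [this, Real.rpow_neg_one, ENNReal.ofReal_inv_of_pos (by positivity)]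
    congr 1
    rw [show ((n : ℝ) + 1) = ((n + 1 : ℕ) : ℝ) by push_cast; ring, ENNReal.ofReal_natCast]
  rw [h2, ← mul_assoc, ENNReal.mul_inv_cancel (by simp) (by simp), one_mul, one_div,
    ENNReal.rpow_rpow_inv hp0.ne']

/-- Part (A). -/
lemma partA {p : ℝ} (hp : 1 ≤ p) (hH : ¬ FiniteDimensional ℂ H) :
    ∃ f : ℂ → ℂ, LipschitzOnCircle f ∧ ¬ InDiskAlgebra f ∧
      ∃ (T₁ : H →L[ℂ] H) (T₀ : ℕ → H →L[ℂ] H), ‖T₁‖ ≤ 1 ∧ (∀ n, ‖T₀ n‖ ≤ 1) ∧
        (⨆ n, schattenNorm p (T₁ - T₀ n)) < ⊤ ∧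
        IncreasesTo (fun n => ‖T₀ n‖) 1 ∧
        IncreasesTo (fun n => schattenNorm p (funCalc f T₁ - funCalc f (T₀ n))) ⊤ ∧
        ∀ n, schattenNorm p (funCalc f T₁ - funCalc f (T₀ n)) < ⊤ := by
  have hp0 : 0 < p := by linarith
  choose E hE1 hE2 using fun n => exists_submodule_finrank hH (n + 1)
  let ε : ℕ → ℝ := fun n => ((n : ℝ) + 1) ^ (-(1 / p))
  let r : ℕ → ℝ := fun n => 1 - ε n
  have hε0 : ∀ n, 0 < ε n := fun n => by positivity
  have hε1 : ∀ n, ε n ≤ 1 := fun n => by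
    refine Real.rpow_le_one_of_one_le_of_nonpos (by linarith [(Nat.cast_nonneg n : (0 : ℝ) ≤ n)]) ?_
    have : 0 < 1 / p := by positivity
    linarith
  have hr0 : ∀ n, 0 ≤ r n := fun n => by simp only [r]; linarith [hε1 n]
  have hr1 : ∀ n, r n < 1 := fun n => by simp only [r]; linarith [hε0 n]
  have hrm : Monotone r := by
    intro a b hab
    simp only [r, ε]
    have h1 : ((b : ℝ) + 1) ^ (-(1 / p)) ≤ ((a : ℝ) + 1) ^ (-(1 / p)) := by
      refine Real.rpow_le_rpow_of_nonpos (by positivity) (by gcongr) ?_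
      have : 0 < 1 / p := by positivity
      linarith
    linarith
  have hrlim : Tendsto r atTop (𝓝 1) := by
    have h1 : Tendsto ε atTop (𝓝 0) := by
      have h2 : Tendsto (fun x : ℝ => x ^ (-(1 / p))) atTop (𝓝 0) :=
        tendsto_rpow_neg_atTop (by positivity)
      have h3 : Tendsto (fun n : ℕ => (n : ℝ) + 1) atTop atTop :=
        tendsto_atTop_add_const_right _ _ tendsto_natCast_atTop_atTop
      exact h2.comp h3
    have := (tendsto_const_nhds (x := (1 : ℝ))).sub h1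
    simpa using this
  have hεr : ∀ n, ε n = 1 - r n := fun n => by simp [r]
  let T₀ : ℕ → H →L[ℂ] H := fun n => 1 - ((1 - r n : ℝ) : ℂ) • (E n).starProjection
  have hle : ∀ n, ‖T₀ n‖ ≤ 1 := by
    intro n
    have e : T₀ n = ((r n : ℝ) : ℂ) • (1 : H →L[ℂ] H) + ((1 - r n : ℝ) : ℂ) • (1 - (E n).starProjection) := by
      simp only [T₀]
      rw [smul_sub]
      have : (1 : H →L[ℂ] H) = ((r n : ℝ) : ℂ) • (1 : H →L[ℂ] H) + ((1 - r n : ℝ) : ℂ) • (1 : H →L[ℂ] H) := by
        rw [← add_smul]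
        push_cast
        simp
      conv_lhs => rw [this]
      abel
    have hperp : ‖(1 : H →L[ℂ] H) - (E n).starProjection‖ ≤ 1 := by
      have h1 : (1 : H →L[ℂ] H) - (E n).starProjection = (E n)ᗮ.starProjection := by
        rw [Submodule.starProjection_orthogonal']
      rw [h1]
      exact Submodule.starProjection_norm_le _
    rw [e]
    calc ‖((r n : ℝ) : ℂ) • (1 : H →L[ℂ] H) + ((1 - r n : ℝ) : ℂ) • (1 - (E n).starProjection)‖
        ≤ ‖((r n : ℝ) : ℂ) • (1 : H →L[ℂ] H)‖ + ‖((1 - r n : ℝ) : ℂ) • (1 - (E n).starProjection)‖ :=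
          norm_add_le _ _
      _ ≤ r n * 1 + (1 - r n) * 1 := by
          rw [norm_smul, norm_smul, Complex.norm_real, Complex.norm_real, Real.norm_eq_abs,
            Real.norm_eq_abs, abs_of_nonneg (hr0 n), abs_of_nonneg (by linarith [hr1 n])]
          have h1 := hr0 n
          have h2 : 0 ≤ 1 - r n := by linarith [hr1 n]
          gcongr
          exact ContinuousLinearMap.norm_id_le
      _ = 1 := by ring
  have hge : ∀ n, 1 ≤ ‖T₀ n‖ := by
    intro n
    have hne : (E n)ᗮ ≠ ⊥ := by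
      intro h
      have htop : E n = ⊤ := (Submodule.orthogonal_eq_bot_iff).1 h
      apply hH
      have h3 := hE1 n
      rw [htop] at h3
      exact (Submodule.topEquiv (R := ℂ) (M := H)).finiteDimensional
    obtain ⟨v, hv, hv0⟩ := Submodule.exists_mem_ne_zero_of_ne_bot hne
    have hPv : (E n).starProjection v = 0 := by
      have h1 : v ∈ LinearMap.ker (E n).starProjection.toLinearMap := by
        rw [Submodule.ker_starProjection]
        exact hv
      exact h1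
    have hTv : T₀ n v = v := by
      change v - ((1 - r n : ℝ) : ℂ) • (E n).starProjection v = v
      rw [hPv, smul_zero, sub_zero]
    have h1 := (T₀ n).le_opNorm v
    rw [hTv] at h1
    have h2 : 0 < ‖v‖ := norm_pos_iff.2 hv0
    nlinarith
  have hdiff : ∀ n, funCalc exF (1 : H →L[ℂ] H) - funCalc exF (T₀ n)
      = ((ε n * psi (r n) : ℝ) : ℂ) • (E n).starProjection := by
    intro n
    have h1 := funCalc_sub (E n) (hr0 n) (hr1 n) (hle n)
    rw [hεr n]
    exact h1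
  have hval : ∀ n, schattenNorm p (funCalc exF (1 : H →L[ℂ] H) - funCalc exF (T₀ n))
      = ENNReal.ofReal (psi (r n)) := by
    intro n
    rw [hdiff n]
    exact schattenNorm_example hp n (E n) (hE2 n) _ (psi_nonneg (hr0 n))
  refine ⟨exF, exF_lipschitz, not_inDiskAlgebra_exF, 1, T₀, ContinuousLinearMap.norm_id_le, hle,
    ?_, ?_, ?_, ?_⟩
  · have h1 : ∀ n, schattenNorm p ((1 : H →L[ℂ] H) - T₀ n) = 1 := by
      intro n
      have e : (1 : H →L[ℂ] H) - T₀ n = ((ε n * 1 : ℝ) : ℂ) • (E n).starProjection := by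
        simp only [T₀]
        rw [sub_sub_cancel, mul_one, ← hεr n]
      rw [e, schattenNorm_example hp n (E n) (hE2 n) 1 zero_le_one]
      simp
    simp_rw [h1]
    simp
  · have h1 : ∀ n, ‖T₀ n‖ = 1 := fun n => le_antisymm (hle n) (hge n)
    simp_rw [h1]
    exact ⟨monotone_const, tendsto_const_nhds⟩
  · simp_rw [hval]
    refine ⟨fun a b hab => ENNReal.ofReal_le_ofReal (psi_mono (hr0 a) (hrm hab) (hr1 b)), ?_⟩
    rw [ENNReal.tendsto_nhds_top_iff_nnreal]
    intro x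
    filter_upwards [psi_tendsto hr0 hr1 hrlim x] with n hn
    rw [← ENNReal.ofReal_coe_nnreal]
    exact (ENNReal.ofReal_lt_ofReal_iff_of_nonneg x.2).2 hn
  · intro n
    rw [hval n]
    exact ENNReal.ofReal_lt_top

end Pool.Agent.H93.Schatten
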